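import Mathlib

set_option autoImplicit false

/-!
An averaging bound for the weighted `l1` distance inside the classes of a partition.
-/

namespace Pool.Agent.H231Z.Abc

open Finset

/-- mean squared difference is at most twice the second moment about any centre -/
theorem sq_diff_le {U : Type} (C : Finset U) (ρ a : U → ℝ) (l : ℝ) :
    ∑ u ∈ C, ∑ v ∈ C, ρ u * ρ v * (a u - a v) ^ 2 ≤
      2 * (∑ u ∈ C, ρ u) * ∑ u ∈ C, ρ u * (a u - l) ^ 2 := by
  have h : ∑ u ∈ C, ∑ v ∈ C, ρ u * ρ v * (a u - a v) ^ 2 =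
      2 * (∑ u ∈ C, ρ u) * (∑ u ∈ C, ρ u * (a u - l) ^ 2) -
        2 * (∑ u ∈ C, ρ u * (a u - l)) ^ 2 := by
    have e1 : (∑ u ∈ C, ρ u) * (∑ u ∈ C, ρ u * (a u - l) ^ 2) =
        ∑ u ∈ C, ∑ v ∈ C, ρ u * (ρ v * (a v - l) ^ 2) := sum_mul_sum _ _ _ _
    have e2 : (∑ u ∈ C, ρ u) * (∑ u ∈ C, ρ u * (a u - l) ^ 2) =
        ∑ u ∈ C, ∑ v ∈ C, (ρ u * (a u - l) ^ 2) * ρ v := by
      rw [mul_comm]; exact sum_mul_sum _ _ _ _
    have e3 : (∑ u ∈ C, ρ u * (a u - l)) ^ 2 =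
        ∑ u ∈ C, ∑ v ∈ C, (ρ u * (a u - l)) * (ρ v * (a v - l)) := by
      rw [sq]; exact sum_mul_sum _ _ _ _
    have e4 : 2 * (∑ u ∈ C, ρ u) * (∑ u ∈ C, ρ u * (a u - l) ^ 2) =
        (∑ u ∈ C, ρ u) * (∑ u ∈ C, ρ u * (a u - l) ^ 2) +
        (∑ u ∈ C, ρ u) * (∑ u ∈ C, ρ u * (a u - l) ^ 2) := by ring
    rw [e4]
    nth_rewrite 1 [e1]
    rw [e2, e3, mul_sum, ← sum_add_distrib, ← sum_sub_distrib]
    refine sum_congr rfl fun u _ => ?_
    rw [mul_sum, ← sum_add_distrib, ← sum_sub_distrib]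
    refine sum_congr rfl fun v _ => ?_
    ring
  rw [h]
  nlinarith [sq_nonneg (∑ u ∈ C, ρ u * (a u - l))]

/-- the bound for one class -/
theorem class_bound {U J : Type} [DecidableEq U] [Fintype J] (C : Finset U) (ρ : U → ℝ)
    (hρ : ∀ u, 0 < ρ u) (c l : J → ℝ) (hc : ∀ j, 0 ≤ c j) (a : J → U → ℝ) (s t D : ℝ)
    (hs : 0 ≤ s) (ht : 0 < t) (hD0 : 0 ≤ D)
    (hD : ∀ u ∈ C, ∀ v ∈ C, u ≠ v → D ≤ ∑ j, c j * (a j u - a j v) ^ 2) :
    D * (∑ u ∈ C, ρ u - t - t ^ (-s) * ∑ u ∈ C, ρ u ^ (1 + s)) ≤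
      2 * ∑ u ∈ C, ρ u * ∑ j, c j * (a j u - l j) ^ 2 := by
  rcases C.eq_empty_or_nonempty with rfl | hne
  · simp only [sum_empty, mul_zero, sub_zero, zero_sub]
    nlinarith
  set m := ∑ u ∈ C, ρ u with hm
  have hm0 : 0 < m := sum_pos (fun u _ => hρ u) hne
  have h1 : D * (m ^ 2 - ∑ u ∈ C, ρ u ^ 2) ≤
      ∑ u ∈ C, ∑ v ∈ C, ρ u * ρ v * ∑ j, c j * (a j u - a j v) ^ 2 := by
    have e : m ^ 2 = ∑ u ∈ C, ∑ v ∈ C, ρ u * ρ v := by rw [sq]; exact sum_mul_sum _ _ _ _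
    rw [e, ← sum_sub_distrib, mul_sum]
    refine sum_le_sum fun u hu => ?_
    rw [← add_sum_erase C _ hu, ← add_sum_erase C (fun v => ρ u * ρ v * ∑ j, c j * (a j u - a j v) ^ 2) hu]
    have : D * (ρ u * ρ u + ∑ v ∈ C.erase u, ρ u * ρ v - ρ u ^ 2) =
        ∑ v ∈ C.erase u, ρ u * ρ v * D := by rw [← sum_mul]; ring
    rw [this]
    simp only [sub_self, ne_eq, OfNat.ofNat_ne_zero, not_false_eq_true, zero_pow, mul_zero,
      sum_const_zero, zero_add]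
    refine sum_le_sum fun v hv => ?_
    exact mul_le_mul_of_nonneg_left (hD u hu v (mem_of_mem_erase hv) (ne_of_mem_erase hv).symm)
      (mul_pos (hρ u) (hρ v)).le
  have h2 : ∑ u ∈ C, ∑ v ∈ C, ρ u * ρ v * ∑ j, c j * (a j u - a j v) ^ 2 ≤
      m * (2 * ∑ u ∈ C, ρ u * ∑ j, c j * (a j u - l j) ^ 2) := by
    have e1 : ∑ u ∈ C, ∑ v ∈ C, ρ u * ρ v * ∑ j, c j * (a j u - a j v) ^ 2 =
        ∑ j, c j * ∑ u ∈ C, ∑ v ∈ C, ρ u * ρ v * (a j u - a j v) ^ 2 := by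
      simp only [mul_sum]
      rw [sum_comm (s := univ)]
      refine sum_congr rfl fun u _ => ?_
      rw [sum_comm (s := univ)]
      refine sum_congr rfl fun v _ => sum_congr rfl fun j _ => by ring
    have e2 : m * (2 * ∑ u ∈ C, ρ u * ∑ j, c j * (a j u - l j) ^ 2) =
        ∑ j, c j * (2 * m * ∑ u ∈ C, ρ u * (a j u - l j) ^ 2) := by
      simp only [mul_sum]
      rw [sum_comm (s := univ)]
      refine sum_congr rfl fun u _ => sum_congr rfl fun j _ => by ring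
    rw [e1, e2]
    exact sum_le_sum fun j _ => mul_le_mul_of_nonneg_left (sq_diff_le C ρ (a j) (l j)) (hc j)
  have h3 : ∑ u ∈ C, ρ u ^ 2 ≤ m * (t + t ^ (-s) * ∑ u ∈ C, ρ u ^ (1 + s)) := by
    have e : m * (t + t ^ (-s) * ∑ u ∈ C, ρ u ^ (1 + s)) =
        ∑ u ∈ C, (ρ u * t + m * (t ^ (-s) * ρ u ^ (1 + s))) := by
      rw [sum_add_distrib, ← sum_mul, ← mul_sum, ← mul_sum]; ring
    rw [e]
    refine sum_le_sum fun u hu => ?_
    have hu0 := hρ u
    have hA : 0 ≤ m * (t ^ (-s) * ρ u ^ (1 + s)) := by positivity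
    rcases le_total (ρ u) t with h | h
    · nlinarith
    · have hum : ρ u ≤ m := single_le_sum (f := ρ) (fun v _ => (hρ v).le) hu
      have h4 : ρ u ≤ t ^ (-s) * ρ u ^ (1 + s) := by
        rw [Real.rpow_add hu0, Real.rpow_one, Real.rpow_neg ht.le]
        have h5 : t ^ s ≤ ρ u ^ s := Real.rpow_le_rpow ht.le h hs
        have h6 : 0 < t ^ s := Real.rpow_pos_of_pos ht s
        rw [inv_mul_eq_div, le_div_iff₀ h6]
        exact mul_le_mul_of_nonneg_left h5 hu0.le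
      nlinarith [mul_le_mul hum h4 hu0.le hm0.le, mul_pos hu0 ht]
  have h4 : m * (D * (m - t - t ^ (-s) * ∑ u ∈ C, ρ u ^ (1 + s))) ≤
      m * (2 * ∑ u ∈ C, ρ u * ∑ j, c j * (a j u - l j) ^ 2) := by
    refine le_trans ?_ (h1.trans h2)
    nlinarith [mul_le_mul_of_nonneg_left h3 hD0]
  exact le_of_mul_le_mul_left h4 hm0

/-- the bound summed over all classes -/
theorem all_bound {U J β : Type} [Fintype U] [DecidableEq U] [Fintype J] [Fintype β]
    [DecidableEq β] (ρ : U → ℝ)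
    (hρ : ∀ u, 0 < ρ u) (c l : J → ℝ) (hc : ∀ j, 0 ≤ c j) (a : J → U → ℝ) (s t D : ℝ)
    (hs : 0 ≤ s) (ht : 0 < t) (hD0 : 0 ≤ D) (cls : U → β)
    (hD : ∀ u v, u ≠ v → cls u = cls v → D ≤ ∑ j, c j * (a j u - a j v) ^ 2) :
    D * (∑ u, ρ u - Fintype.card β * t - t ^ (-s) * ∑ u, ρ u ^ (1 + s)) ≤
      2 * ∑ u, ρ u * ∑ j, c j * (a j u - l j) ^ 2 := by
  have h := sum_le_sum (s := (univ : Finset β)) fun b _ =>
    class_bound (univ.filter fun u => cls u = b) ρ hρ c l hc a s t D hs ht hD0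
      (fun u hu v hv huv => hD u v huv ((mem_filter.1 hu).2.trans (mem_filter.1 hv).2.symm))
  rw [← mul_sum, ← mul_sum, sum_sub_distrib, sum_sub_distrib, ← mul_sum, sum_fiberwise,
    sum_fiberwise, sum_fiberwise] at h
  simpa using h

theorem marginal {ι κ : Type} [Fintype ι] [DecidableEq ι] [Fintype κ] (p : ι → κ → ℝ)
    (hs : ∀ i, ∑ k, p i k = 1) (i : ι) (f : κ → ℝ) :
    ∑ u : ι → κ, (∏ j, p j (u j)) * f (u i) = ∑ k, p i k * f k := by
  have h := Fintype.piFinset_univ (α := ι) (β := fun _ => κ) ▸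
    prod_univ_sum (fun _ : ι => (univ : Finset κ))
      (fun j k => p j k * (if j = i then f k else 1))
  simp only [prod_mul_distrib, prod_ite_eq', mem_univ, if_true] at h
  rw [← h, prod_eq_single i]
  · simp
  · intro j _ hj
    simp [hj, hs j]
  · simp

theorem abs_eq_sum (K : ℕ) (k l : Fin K) :
    ∑ τ : Fin K, ((if τ < k then (1 : ℝ) else 0) - (if τ < l then 1 else 0)) ^ 2 =
      |(k : ℝ) - (l : ℝ)| := by
  have key : ∀ k l : Fin K, k ≤ l →
      ∑ τ : Fin K, ((if τ < k then (1 : ℝ) else 0) - (if τ < l then 1 else 0)) ^ 2 =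
        (l : ℝ) - (k : ℝ) := by
    intro k l h
    have e : ∀ k : Fin K, ∑ τ : Fin K, (if τ < k then (1 : ℝ) else 0) = k := by
      intro k
      rw [sum_boole]
      have : (univ.filter fun τ : Fin K => τ < k) = Iio k := by ext; simp
      rw [this, Fin.card_Iio]
    rw [← e l, ← e k, ← sum_sub_distrib]
    refine sum_congr rfl fun τ _ => ?_
    by_cases h1 : τ < k
    · simp [h1, h1.trans_le h]
    · by_cases h2 : τ < l <;> simp [h1, h2]
  rcases le_total k l with h | h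
  · rw [key k l h, abs_sub_comm, abs_of_nonneg]
    exact sub_nonneg.2 (by exact_mod_cast h)
  · rw [abs_of_nonneg (sub_nonneg.2 (by exact_mod_cast h)), ← key l k h]
    exact sum_congr rfl fun τ _ => by ring

theorem core {ι β : Type} [Fintype ι] [DecidableEq ι] [Fintype β] [DecidableEq β] (K : ℕ)
    (p : ι → Fin K → ℝ) (hp : ∀ i k, 0 < p i k) (hs1 : ∀ i, ∑ k, p i k = 1) (w : ι → ℝ)
    (hw : ∀ i, 0 ≤ w i) (l : ι → Fin K → ℝ) (V R : ι → ℝ)
    (hV : ∀ i, ∑ τ, ∑ k, p i k * ((if τ < k then 1 else 0) - l i τ) ^ 2 ≤ V i) (s t D : ℝ)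
    (hs : 0 ≤ s) (ht : 0 < t) (hR : ∀ i, ∑ k, p i k ^ (1 + s) ≤ R i)
    (cls : (ι → Fin K) → β) (hD0 : 0 ≤ D)
    (hD : ∀ u v, u ≠ v → cls u = cls v → D ≤ ∑ i, w i * |(u i : ℝ) - (v i : ℝ)|) :
    D * (1 - Fintype.card β * t - t ^ (-s) * ∏ i, R i) ≤ 2 * ∑ i, w i * V i := by
  have h := all_bound (J := ι × Fin K) (fun u : ι → Fin K => ∏ j, p j (u j))
    (fun u => prod_pos fun j _ => hp j _) (fun j => w j.1) (fun j => l j.1 j.2) (fun j => hw j.1)
    (fun j u => if j.2 < u j.1 then 1 else 0) s t D hs ht hD0 cls (fun u v huv hc => by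
      refine (hD u v huv hc).trans (le_of_eq ?_)
      rw [Fintype.sum_prod_type]
      refine sum_congr rfl fun i _ => ?_
      rw [← abs_eq_sum, mul_sum])
  have e1 : ∑ u : ι → Fin K, ∏ j, p j (u j) = 1 := by
    have := Fintype.piFinset_univ (α := ι) (β := fun _ => Fin K) ▸
      prod_univ_sum (fun _ : ι => (univ : Finset (Fin K))) p
    rw [← this]; simp [hs1]
  have e2 : ∑ u : ι → Fin K, (∏ j, p j (u j)) ^ (1 + s) ≤ ∏ i, R i := by
    have := Fintype.piFinset_univ (α := ι) (β := fun _ => Fin K) ▸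
      prod_univ_sum (fun _ : ι => (univ : Finset (Fin K))) (fun j k => p j k ^ (1 + s))
    simp only [← Real.finsetProd_rpow _ _ (fun j _ => (hp j _).le)]
    rw [← this]
    exact prod_le_prod (fun j _ => sum_nonneg fun k _ => (Real.rpow_pos_of_pos (hp j k) _).le)
      fun j _ => hR j
  have e3 : ∑ u : ι → Fin K, (∏ j, p j (u j)) * ∑ j : ι × Fin K, w j.1 *
      ((if j.2 < u j.1 then 1 else 0) - l j.1 j.2) ^ 2 ≤ ∑ i, w i * V i := by
    simp only [mul_sum]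
    rw [sum_comm, Fintype.sum_prod_type]
    refine sum_le_sum fun i _ => ?_
    refine le_trans (le_of_eq ?_) (mul_le_mul_of_nonneg_left (hV i) (hw i))
    rw [mul_sum]
    refine sum_congr rfl fun τ _ => ?_
    rw [← marginal p hs1 i (fun k => ((if τ < k then 1 else 0) - l i τ) ^ 2), mul_sum]
    refine sum_congr rfl fun u _ => by ring
  rw [e1] at h
  have h5 : 0 ≤ t ^ (-s) := (Real.rpow_pos_of_pos ht _).le
  nlinarith [mul_le_mul_of_nonneg_left (mul_le_mul_of_nonneg_left e2 h5) hD0]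

end Pool.Agent.H231Z.Abc
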