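import Pool.Agent.Helper923.PNT

set_option autoImplicit false

/-!
From a short vector statement with constant `exp g` to triples with a large quality.
-/

namespace Pool.Agent.H231Z.Abc

open Finset Filter Topology

/-- the short vector statement with constant `exp g` -/
def SV (g : ℝ) : Prop :=
  ∀ l : ℝ, 1 < l → ∃ (c : ℝ) (d : ℕ), 0 < c ∧ ∀ (n k x : ℕ) (p : Fin n → ℕ), (∀ i, (p i).Prime) →
    Function.Injective p → (∀ i, p i ≠ 2) → (∀ i, p i ≤ x) → ∀ T : ℝ, c * (Real.log x + 1) ≤ T →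
    c ≤ n → c * (n * x * T + 1) ^ d * 2 ^ k * ∏ i, Real.log (p i) ≤ (T * Real.exp g / l ^ 2) ^ n →
    ∃ a b c : ℕ, 0 < a ∧ 0 < b ∧ Nat.Coprime a b ∧ a + b = c ∧ 2 ^ k ≤ c ∧
      (∏ q ∈ (a * b * c).primeFactors, q) * 2 ^ k < 2 * (∏ i, p i) * c ∧
      Real.log c ≤ l ^ 2 * n * T

theorem fact_le (n : ℕ) (hn : 1 ≤ n) :
    (n.factorial : ℝ) ≤ Real.exp 1 * n * (n / Real.exp 1) ^ n := by
  obtain ⟨m, rfl⟩ : ∃ m, n = m + 1 := ⟨n - 1, by omega⟩
  have h := Stirling.stirlingSeq'_antitone (Nat.zero_le m)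
  simp only [Function.comp, Nat.succ_eq_add_one, zero_add, Stirling.stirlingSeq_one] at h
  rw [Stirling.stirlingSeq] at h
  have h0 : (1 : ℝ) ≤ ((m + 1 : ℕ) : ℝ) := by exact_mod_cast hn
  set y := ((m + 1 : ℕ) : ℝ)
  have he := Real.exp_pos 1
  rw [div_le_iff₀ (by positivity), Real.sqrt_mul (by norm_num)] at h
  refine h.trans ?_
  have h1 : √y ≤ y := by
    rw [Real.sqrt_le_left (by linarith)]; nlinarith
  have h2 : Real.exp 1 / √2 * (√2 * √y * (y / Real.exp 1) ^ (m + 1)) =
      Real.exp 1 * √y * (y / Real.exp 1) ^ (m + 1) := by field_simp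
  rw [h2]
  gcongr

theorem nth_le {l : ℝ} (hl : 1 < l) : ∀ᶠ n : ℕ in atTop, ∀ i ≤ n,
    (Nat.nth Nat.Prime i : ℝ) ≤ l * (i + 1) * Real.log (Nat.nth Nat.Prime n) := by
  have h1 := Pool.Agent.Helper923.PNT.pi_tendsto.eventually
    (lt_mem_nhds (inv_lt_one_of_one_lt₀ hl))
  obtain ⟨x0, hx0⟩ := eventually_atTop.1 h1
  have h2 : Tendsto (fun n : ℕ => Real.log (Nat.nth Nat.Prime n)) atTop atTop :=
    Real.tendsto_log_atTop.comp (tendsto_natCast_atTop_atTop.comp
      (Nat.nth_strictMono Nat.infinite_setOf_prime).tendsto_atTop)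
  filter_upwards [h2.eventually_ge_atTop x0] with n hn i hi
  have hq : (0 : ℝ) < Nat.nth Nat.Prime i := by exact_mod_cast (Nat.prime_nth_prime i).pos
  have hL : Real.log (Nat.nth Nat.Prime i) ≤ Real.log (Nat.nth Nat.Prime n) :=
    Real.log_le_log hq
      (by exact_mod_cast (Nat.nth_strictMono Nat.infinite_setOf_prime).monotone hi)
  have hL0 : 0 ≤ Real.log (Nat.nth Nat.Prime n) := Real.log_natCast_nonneg _
  have hi0 : (0 : ℝ) ≤ i := Nat.cast_nonneg i
  rcases le_total x0 (Nat.nth Nat.Prime i) with h | h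
  · have h3 := hx0 _ h
    rw [Nat.floor_natCast, Nat.primeCounting, Nat.primeCounting',
      Nat.count_nth_succ_of_infinite Nat.infinite_setOf_prime, lt_div_iff₀ hq,
      inv_mul_lt_iff₀ (by linarith)] at h3
    push_cast at h3
    refine h3.le.trans ?_
    rw [mul_assoc]
    gcongr
  · have : 1 * 1 * Real.log (Nat.nth Nat.Prime n) ≤
        l * (i + 1) * Real.log (Nat.nth Nat.Prime n) := by
      gcongr; linarith
    linarith

theorem poly_le (c : ℝ) (d : ℕ) {l : ℝ} (hl : 1 < l) :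
    ∀ᶠ n : ℕ in atTop, c * (n + 1 : ℝ) ^ d ≤ l ^ n := by
  have h := (tendsto_pow_const_div_const_pow_of_one_lt d hl).const_mul (|c| * 2 ^ d)
  rw [mul_zero] at h
  filter_upwards [h.eventually (gt_mem_nhds one_pos), eventually_ge_atTop 1] with n hn h1
  have h2 : (1 : ℝ) ≤ n := by exact_mod_cast h1
  rw [← mul_div_assoc, div_lt_one (by positivity)] at hn
  refine le_trans ?_ hn.le
  rw [mul_assoc, ← mul_pow]
  refine (mul_le_mul_of_nonneg_right (le_abs_self c) (by positivity)).trans ?_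
  gcongr; linarith

theorem final_l {g : ℝ} (H : SV g) {l C : ℝ} (hl : 1 < l) (hC0 : 0 ≤ C)
    (hC : C * l ^ 4 ≤ 4 * Real.exp ((g - 1) / 2)) (N : ℕ) :
    ∃ a b c : ℕ, 0 < a ∧ 0 < b ∧ Nat.Coprime a b ∧ a + b = c ∧ N < c ∧
      ((∏ q ∈ (a * b * c).primeFactors, q : ℕ) : ℝ) *
        Real.exp (C * √(Real.log c) / Real.log (Real.log c)) < c := by
  obtain ⟨c0, d, hc0, H⟩ := H l hl
  have hl0 : 0 < l := by linarith
  have h2 : Tendsto (fun n : ℕ => Real.log (Nat.nth Nat.Prime n)) atTop atTop :=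
    Real.tendsto_log_atTop.comp (tendsto_natCast_atTop_atTop.comp
      (Nat.nth_strictMono Nat.infinite_setOf_prime).tendsto_atTop)
  set κ := l ^ 4 * Real.exp (1 - g) with hκ
  have hκ0 : 0 < κ := by positivity
  obtain ⟨n, hn1, hn2, hn3, hn4, hn5, hn6, hn7⟩ := ((nth_le hl).and
    ((poly_le (c0 * (64 * l ^ 6 * κ + 1) ^ d * 4 * Real.exp 1) (8 * d + 2) hl).and
    ((eventually_ge_atTop (N + 4)).and ((h2.eventually_ge_atTop 1).and
    ((h2.eventually_ge_atTop ((|g| + 1) / (2 * (1 - l⁻¹)))).and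
    ((tendsto_natCast_atTop_atTop.eventually_ge_atTop c0).and
    (tendsto_natCast_atTop_atTop.eventually_ge_atTop (2 * c0 / κ)))))))).exists
  set x := Nat.nth Nat.Prime n with hx
  set L := Real.log x with hL
  have hn4' : (4 : ℝ) ≤ n := by exact_mod_cast (by omega : 4 ≤ n)
  have hx0 : (0 : ℝ) < x := by exact_mod_cast (Nat.prime_nth_prime n).pos
  set p : Fin n → ℕ := fun i => Nat.nth Nat.Prime (i + 1) with hp
  have hmono := Nat.nth_strictMono Nat.infinite_setOf_prime
  have hpx : ∀ i, p i ≤ x := fun i => hmono.monotone i.2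
  have hp0 : ∀ i, 0 < p i := fun i => (Nat.prime_nth_prime _).pos
  set P := ∏ i, p i with hP
  have hP0 : (1 : ℝ) ≤ P := by exact_mod_cast prod_pos fun i _ => hp0 i
  have he2 : 1 ≤ Real.exp (2 * n) := Real.one_le_exp (by positivity)
  obtain ⟨k, hk1, hk2⟩ := exists_nat_pow_near (x := 2 * P * Real.exp (2 * n)) (y := 2)
    (by nlinarith) one_lt_two
  set T := κ * n * L ^ 2 with hT
  have hxL := hn1 n le_rfl
  rw [← hx] at hxL
  have hxb : (x : ℝ) ≤ 4 * l ^ 2 * (n + 1) ^ 2 := by
    have h3 : L ≤ 2 * √x := by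
      have h4 := Real.log_le_sub_one_of_pos (Real.sqrt_pos.2 hx0)
      rw [Real.log_sqrt hx0.le] at h4
      linarith
    have h5 : √x * √x ≤ (2 * l * (n + 1)) * √x := by
      rw [Real.mul_self_sqrt hx0.le]
      calc (x : ℝ) ≤ l * (n + 1) * L := hxL
        _ ≤ l * (n + 1) * (2 * √x) := by gcongr
        _ = _ := by ring
    have h6 := le_of_mul_le_mul_right h5 (Real.sqrt_pos.2 hx0)
    calc (x : ℝ) = √x ^ 2 := (Real.sq_sqrt hx0.le).symm
      _ ≤ (2 * l * (n + 1)) ^ 2 := by gcongr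
      _ = _ := by ring
  have hLx : L ≤ x := (Real.log_le_sub_one_of_pos hx0).trans (by linarith)
  have hPb : (P : ℝ) ≤ (n + 1) * (Real.exp 1 * n * (n / Real.exp 1) ^ n) * (l * L) ^ n := by
    have h3 : (P : ℝ) ≤ ∏ i : Fin n, (((i + 1 + 1 : ℕ) : ℝ) * (l * L)) := by
      rw [hP]; push_cast
      refine prod_le_prod (fun i _ => by positivity) fun i _ => ?_
      have := hn1 (i + 1) i.2
      push_cast at this
      simp only [hp]
      linarith
    rw [prod_mul_distrib, prod_const, card_univ, Fintype.card_fin, ← Nat.cast_prod,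
      Fin.prod_univ_eq_prod_range (fun i => i + 1 + 1)] at h3
    have h4 := prod_range_succ' (fun i => i + 1) n
    rw [prod_range_add_one_eq_factorial, zero_add, mul_one] at h4
    rw [← h4, Nat.factorial_succ] at h3
    push_cast at h3
    refine h3.trans ?_
    gcongr
    exact fact_le n (by omega)
  obtain ⟨a, b, c, ha, hb, hab, habc, hkc, hrad, hlog⟩ := H n (k + 1) x p
    (fun i => Nat.prime_nth_prime _)
    (fun i j h => Fin.ext (by have := hmono.injective h; omega))
    (fun i h => by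
      have := hmono.injective (h.trans Nat.nth_prime_zero_eq_two.symm); omega)
    hpx T (by
      rw [div_le_iff₀ hκ0] at hn7
      have : (L + 1) ≤ 2 * L ^ 2 := by nlinarith
      calc c0 * (L + 1) ≤ c0 * (2 * L ^ 2) := by gcongr
        _ = 2 * c0 * L ^ 2 := by ring
        _ ≤ n * κ * L ^ 2 := by gcongr
        _ = T := by rw [hT]; ring) hn6 (by
      have e1 : T * Real.exp g / l ^ 2 = l * (l * Real.exp 1 * n * L ^ 2) := by
        rw [hT, hκ, Real.exp_sub]; field_simp
      have b1 : ∏ i, Real.log (p i) ≤ L ^ n := by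
        have := prod_le_pow_card (univ : Finset (Fin n)) (fun i => (Real.log (p i)).toNNReal)
          L.toNNReal fun i _ => Real.toNNReal_le_toNNReal
            (Real.log_le_log (by exact_mod_cast hp0 i) (by exact_mod_cast hpx i))
        have h3 := NNReal.coe_le_coe.2 this
        simpa [Real.log_natCast_nonneg, (by linarith : 0 ≤ L)] using h3
      have b2 : n * x * T + 1 ≤ (64 * l ^ 6 * κ + 1) * (n + 1) ^ 8 := by
        have h3 : n * x * T ≤ (n + 1) * (4 * l ^ 2 * (n + 1) ^ 2) *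
            (κ * (n + 1) * (4 * l ^ 2 * (n + 1) ^ 2) ^ 2) := by
          rw [hT]
          gcongr
          · linarith
          · linarith
          · exact hLx.trans hxb
        have h4 : (1 : ℝ) ≤ (n + 1) ^ 8 := one_le_pow₀ (by linarith)
        nlinarith
      have b3 : (2 : ℝ) ^ (k + 1) ≤ 4 * ((n + 1) * (Real.exp 1 * n * (n / Real.exp 1) ^ n) *
          (l * L) ^ n) * Real.exp (2 * n) := by
        rw [pow_succ]
        calc (2 : ℝ) ^ k * 2 ≤ 2 * P * Real.exp (2 * n) * 2 := by gcongr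
          _ = 4 * P * Real.exp (2 * n) := by ring
          _ ≤ _ := by gcongr
      have e2 : (l * Real.exp 1 * n * L ^ 2) ^ n =
          (n / Real.exp 1) ^ n * (l * L) ^ n * Real.exp (2 * n) * L ^ n := by
        rw [mul_comm (2 : ℝ) n, Real.exp_nat_mul, ← mul_pow, ← mul_pow, ← mul_pow]
        congr 1
        rw [show (2 : ℝ) = 1 + 1 by norm_num, Real.exp_add]
        field_simp
      rw [e1, mul_pow, e2]
      have hL0 : 0 < L := by linarith
      calc c0 * (n * x * T + 1) ^ d * 2 ^ (k + 1) * ∏ i, Real.log (p i)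
          ≤ c0 * ((64 * l ^ 6 * κ + 1) * (n + 1) ^ 8) ^ d *
            (4 * ((n + 1) * (Real.exp 1 * (n + 1) * (n / Real.exp 1) ^ n) *
            (l * L) ^ n) * Real.exp (2 * n)) * L ^ n := by
            gcongr
            refine b3.trans ?_
            gcongr
            linarith
        _ = (c0 * (64 * l ^ 6 * κ + 1) ^ d * 4 * Real.exp 1 * (n + 1) ^ (8 * d + 2)) *
            ((n / Real.exp 1) ^ n * (l * L) ^ n * Real.exp (2 * n) * L ^ n) := by
            rw [mul_pow, ← pow_mul, pow_add]; ring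
        _ ≤ _ := by gcongr)
  have hkc' : (2 : ℝ) ^ (k + 1) ≤ c := by exact_mod_cast hkc
  have hce : Real.exp (2 * n) ≤ c := by nlinarith
  have hc0 : (0 : ℝ) < c := (Real.exp_pos _).trans_le hce
  have hY : 2 * (n : ℝ) ≤ Real.log c := (Real.le_log_iff_exp_le hc0).2 hce
  refine ⟨a, b, c, ha, hb, hab, habc, ?_, ?_⟩
  · have h3 := Real.add_one_le_exp (2 * (n : ℝ))
    have h4 : ((N + 4 : ℕ) : ℝ) ≤ n := by exact_mod_cast hn3
    push_cast at h4
    have : (N : ℝ) < c := by linarith
    exact_mod_cast this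
  · set r := ∏ q ∈ (a * b * c).primeFactors, q
    have hr : (r : ℝ) * 2 ^ (k + 1) < 2 * P * c := by exact_mod_cast hrad
    have hr0 : (0 : ℝ) ≤ r := Nat.cast_nonneg _
    have h3 : (r : ℝ) * Real.exp (2 * n) < c := by
      have : (2 * P) * (r * Real.exp (2 * n)) < (2 * P) * c := by
        nlinarith [mul_le_mul_of_nonneg_left hk2.le hr0]
      exact lt_of_mul_lt_mul_left this (by linarith)
    refine lt_of_le_of_lt (mul_le_mul_of_nonneg_left (Real.exp_le_exp.2 ?_) hr0) h3
    have he8 : Real.exp 2 ≤ Real.log c := by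
      have h4 : Real.exp 2 = Real.exp 1 * Real.exp 1 := by rw [← Real.exp_add]; norm_num
      have h5 := Real.exp_one_lt_d9
      have h6 := Real.exp_pos 1
      nlinarith
    set Y := Real.log c
    set Y0 := l ^ 2 * n * T with hY0
    have hL0 : 0 < L := by linarith
    have hY1 : 0 < Y := by linarith
    have hlY : 2 ≤ Real.log Y := (Real.le_log_iff_exp_le hY1).2 he8
    have hm := Real.log_div_sqrt_antitoneOn he8 (he8.trans hlog) hlog
    simp only at hm
    have hs : √Y0 = l ^ 3 * n * L / Real.exp ((g - 1) / 2) := by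
      rw [Real.sqrt_eq_iff_mul_self_eq (by linarith) (by positivity), hY0, hT, hκ,
        div_mul_div_comm, ← Real.exp_add, add_halves, ← neg_sub g 1, Real.exp_neg]
      field_simp
    have hlog0 : 2 * L / l ≤ Real.log Y0 := by
      have e1 : Y0 = l ^ 4 * Real.exp (1 - g) * (l * n * L) ^ 2 := by rw [hY0, hT, hκ]; ring
      have h4 : L - Real.log 2 ≤ Real.log (l * n * L) := by
        rw [hL, ← Real.log_div hx0.ne' (by norm_num)]
        refine Real.log_le_log (by positivity) ?_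
        rw [← hL, div_le_iff₀ (by norm_num)]
        nlinarith [mul_pos hl0 hL0]
      rw [e1, Real.log_mul (by positivity) (by positivity),
        Real.log_mul (by positivity) (by positivity), Real.log_exp, Real.log_pow, Real.log_pow]
      have h5 := Real.log_nonneg hl.le
      have h6 := Real.log_two_lt_d9
      have h7 : 0 < 1 - l⁻¹ := sub_pos.2 (inv_lt_one_of_one_lt₀ hl)
      rw [div_le_iff₀ (by positivity)] at hn5
      have h8 := le_abs_self g
      push_cast
      rw [div_eq_mul_inv]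
      nlinarith
    have hE := Real.exp_pos ((g - 1) / 2)
    have h9 : 2 * Real.exp ((g - 1) / 2) / (l ^ 4 * n) ≤ Real.log Y / √Y := by
      refine le_trans ?_ hm
      rw [hs]
      refine le_trans (le_of_eq ?_) (div_le_div_of_nonneg_right hlog0 (by positivity))
      field_simp
    rw [div_le_div_iff₀ (by positivity) (Real.sqrt_pos.2 hY1)] at h9
    rw [div_le_iff₀ (by linarith)]
    have hsY := Real.sqrt_nonneg Y
    have h10 : l ^ 4 * (C * √Y) ≤ l ^ 4 * (2 * n * Real.log Y) := by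
      nlinarith [mul_le_mul_of_nonneg_right hC hsY]
    exact le_of_mul_le_mul_left h10 (by positivity)

theorem final {g : ℝ} (H : SV g) (C : ℝ) (hC : C < 4 * Real.exp ((g - 1) / 2)) (N : ℕ) :
    ∃ a b c : ℕ, 0 < a ∧ 0 < b ∧ Nat.Coprime a b ∧ a + b = c ∧ N < c ∧
      ((∏ q ∈ (a * b * c).primeFactors, q : ℕ) : ℝ) *
        Real.exp (C * √(Real.log c) / Real.log (Real.log c)) < c := by
  have hE := Real.exp_pos ((g - 1) / 2)
  have h1 : max C 0 < 4 * Real.exp ((g - 1) / 2) := max_lt hC (by positivity)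
  have h2 : Tendsto (fun l : ℝ => max C 0 * l ^ 4) (𝓝[>] 1) (𝓝 (max C 0 * 1 ^ 4)) :=
    ((continuous_const.mul (continuous_pow 4)).tendsto 1).mono_left nhdsWithin_le_nhds
  rw [one_pow, mul_one] at h2
  obtain ⟨l, hl1, hl2⟩ := ((h2.eventually (gt_mem_nhds h1)).and self_mem_nhdsWithin).exists
  obtain ⟨a, b, c, ha, hb, hab, habc, hN, h⟩ := final_l H hl2 (le_max_right C 0) hl1.le (N + 3)
  refine ⟨a, b, c, ha, hb, hab, habc, by omega, lt_of_le_of_lt ?_ h⟩
  have h3 : 0 ≤ Real.log (Real.log c) := by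
    refine Real.log_nonneg ((Real.le_log_iff_exp_le (by exact_mod_cast (by omega : 0 < c))).2 ?_)
    have : (3 : ℝ) ≤ c := by exact_mod_cast (by omega : 3 ≤ c)
    linarith [Real.exp_one_lt_three]
  gcongr
  exact le_max_left _ _

end Pool.Agent.H231Z.Abc
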