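import Pool.Agent.H231Z.Abc.MTriple
import Pool.Agent.H231Z.Abc.Final

set_option autoImplicit false

/-!
Triples `a + b = c` with `b` much larger than the radical of `a b c`, with extra divisibility.
-/

namespace Pool.Agent.H231Z.Abc.M

open Finset Filter Topology Pool.Agent.H231Z.Abc

theorem x_bound {l x y : ℝ} (hl : 0 < l) (hx0 : 0 < x) (hy : 0 < y) (hxL : x ≤ l * y * Real.log x) :
    x ≤ 4 * l ^ 2 * y ^ 2 := by
  have h3 : Real.log x ≤ 2 * √x := by
    have h4 := Real.log_le_sub_one_of_pos (Real.sqrt_pos.2 hx0)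
    rw [Real.log_sqrt hx0.le] at h4
    linarith
  have h5 : √x * √x ≤ (2 * l * y) * √x := by
    rw [Real.mul_self_sqrt hx0.le]
    calc x ≤ l * y * Real.log x := hxL
      _ ≤ l * y * (2 * √x) := by gcongr
      _ = _ := by ring
  have h6 := le_of_mul_le_mul_right h5 (Real.sqrt_pos.2 hx0)
  calc x = √x ^ 2 := (Real.sq_sqrt hx0.le).symm
    _ ≤ (2 * l * y) ^ 2 := by gcongr
    _ = _ := by ring

theorem P_bound {l L : ℝ} (hl : 0 ≤ l * L) (n : ℕ) (hn : 1 ≤ n) (p : Fin n → ℕ)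
    (hp : ∀ i, (p i : ℝ) ≤ l * ((i + 1 : ℕ) + 1) * L) :
    ((∏ i, p i : ℕ) : ℝ) ≤ (n + 1) * (Real.exp 1 * n * (n / Real.exp 1) ^ n) * (l * L) ^ n := by
  have h3 : ((∏ i, p i : ℕ) : ℝ) ≤ ∏ i : Fin n, (((i + 1 + 1 : ℕ) : ℝ) * (l * L)) := by
    rw [Nat.cast_prod]
    refine prod_le_prod (fun i _ => by positivity) fun i _ => (hp i).trans (le_of_eq ?_)
    push_cast; ring
  rw [prod_mul_distrib, prod_const, card_univ, Fintype.card_fin, ← Nat.cast_prod,
    Fin.prod_univ_eq_prod_range (fun i => i + 1 + 1)] at h3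
  have h4 := prod_range_succ' (fun i => i + 1) n
  rw [prod_range_add_one_eq_factorial, zero_add, mul_one] at h4
  rw [← h4, Nat.factorial_succ] at h3
  push_cast at h3 ⊢
  refine h3.trans ?_
  gcongr
  exact fact_le n hn

theorem size_bound {l g c0 x L P W M : ℝ} {n d : ℕ} (hl0 : 0 < l) (hc0 : 0 < c0) (hL0 : 0 < L)
    (hx0 : 0 < x) (hLx : L ≤ x) (hxb : x ≤ 4 * l ^ 2 * (n + 1) ^ 2) (hW0 : 0 ≤ W) (hW : W ≤ L ^ n)
    (hM0 : 0 ≤ M) (hM : M ≤ 16 * P * Real.exp (2 * n) * (2 * x))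
    (hPb : P ≤ (n + 1) * (Real.exp 1 * n * (n / Real.exp 1) ^ n) * (l * L) ^ n)
    (hn : c0 * (64 * l ^ 6 * (l ^ 4 * Real.exp (1 - g)) + 1) ^ d * (128 * l ^ 2) * Real.exp 1 *
      (n + 1 : ℝ) ^ (8 * d + 4) ≤ l ^ n) :
    c0 * (n * x * (l ^ 4 * Real.exp (1 - g) * n * L ^ 2) + 1) ^ d * M * W ≤
      (l ^ 4 * Real.exp (1 - g) * n * L ^ 2 * Real.exp g / l ^ 2) ^ n := by
  have e1 : l ^ 4 * Real.exp (1 - g) * n * L ^ 2 * Real.exp g / l ^ 2 =
      l * (l * Real.exp 1 * n * L ^ 2) := by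
    rw [Real.exp_sub]; field_simp
  set κ := l ^ 4 * Real.exp (1 - g) with hκ
  have hκ0 : 0 < κ := by positivity
  have hn0 : (0 : ℝ) ≤ n := Nat.cast_nonneg n
  have b2 : n * x * (κ * n * L ^ 2) + 1 ≤ (64 * l ^ 6 * κ + 1) * (n + 1) ^ 8 := by
    have h3 : n * x * (κ * n * L ^ 2) ≤ (n + 1) * (4 * l ^ 2 * (n + 1) ^ 2) *
        (κ * (n + 1) * (4 * l ^ 2 * (n + 1) ^ 2) ^ 2) := by
      gcongr
      · linarith
      · linarith
      · exact hLx.trans hxb
    have h4 : (1 : ℝ) ≤ (n + 1) ^ 8 := one_le_pow₀ (by linarith)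
    have h5 : (n + 1) * (4 * l ^ 2 * (n + 1) ^ 2) *
        (κ * (n + 1) * (4 * l ^ 2 * (n + 1) ^ 2) ^ 2) = 64 * l ^ 6 * κ * (n + 1) ^ 8 := by ring
    linarith
  have b3 : M ≤ 16 * ((n + 1) * (Real.exp 1 * (n + 1) * (n / Real.exp 1) ^ n) *
      (l * L) ^ n) * Real.exp (2 * n) * (2 * (4 * l ^ 2 * (n + 1) ^ 2)) := by
    refine hM.trans ?_
    gcongr
    refine hPb.trans ?_
    gcongr
    linarith
  have e2 : (l * Real.exp 1 * n * L ^ 2) ^ n =
      (n / Real.exp 1) ^ n * (l * L) ^ n * Real.exp (2 * n) * L ^ n := by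
    rw [mul_comm (2 : ℝ) n, Real.exp_nat_mul, ← mul_pow, ← mul_pow, ← mul_pow]
    congr 1
    rw [show (2 : ℝ) = 1 + 1 by norm_num, Real.exp_add]
    field_simp
  rw [e1, mul_pow, e2]
  calc c0 * (n * x * (κ * n * L ^ 2) + 1) ^ d * M * W
      ≤ c0 * ((64 * l ^ 6 * κ + 1) * (n + 1) ^ 8) ^ d *
        (16 * ((n + 1) * (Real.exp 1 * (n + 1) * (n / Real.exp 1) ^ n) *
        (l * L) ^ n) * Real.exp (2 * n) * (2 * (4 * l ^ 2 * (n + 1) ^ 2))) * L ^ n := by gcongr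
    _ = (c0 * (64 * l ^ 6 * κ + 1) ^ d * (128 * l ^ 2) * Real.exp 1 * (n + 1) ^ (8 * d + 4)) *
        ((n / Real.exp 1) ^ n * (l * L) ^ n * Real.exp (2 * n) * L ^ n) := by
        rw [mul_pow, ← pow_mul, pow_add]; ring
    _ ≤ _ := by gcongr

theorem tail_bound {l g C x n Y : ℝ} (hl : 1 < l) (hC : C * l ^ 4 ≤ 4 * Real.exp ((g - 1) / 2))
    (hx0 : 0 < x) (hn : 1 ≤ n) (hL0 : 0 < Real.log x) (hxL : x ≤ l * (n + 1) * Real.log x)
    (hn5 : (|g| + 1) / (2 * (1 - l⁻¹)) ≤ Real.log x) (he8 : Real.exp 2 ≤ Y)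
    (hlog : Y ≤ l ^ 2 * n * (l ^ 4 * Real.exp (1 - g) * n * Real.log x ^ 2)) :
    C * √Y / Real.log Y ≤ 2 * n := by
  have hl0 : 0 < l := by linarith
  have hn0 : 0 < n := by linarith
  set L := Real.log x with hL
  set Y0 := l ^ 2 * n * (l ^ 4 * Real.exp (1 - g) * n * L ^ 2) with hY0
  have hY1 : 0 < Y := (Real.exp_pos 2).trans_le he8
  have hlY : 2 ≤ Real.log Y := (Real.le_log_iff_exp_le hY1).2 he8
  have hm := Real.log_div_sqrt_antitoneOn he8 (he8.trans hlog) hlog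
  simp only at hm
  have hs : √Y0 = l ^ 3 * n * L / Real.exp ((g - 1) / 2) := by
    rw [Real.sqrt_eq_iff_mul_self_eq (by linarith) (by positivity), hY0,
      div_mul_div_comm, ← Real.exp_add, add_halves, ← neg_sub g 1, Real.exp_neg]
    field_simp
  have hlog0 : 2 * L / l ≤ Real.log Y0 := by
    have e1 : Y0 = l ^ 4 * Real.exp (1 - g) * (l * n * L) ^ 2 := by rw [hY0]; ring
    have h4 : L - Real.log 2 ≤ Real.log (l * n * L) := by
      rw [hL, ← Real.log_div hx0.ne' (by norm_num)]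
      refine Real.log_le_log (by positivity) ?_
      rw [← hL, div_le_iff₀ (by norm_num)]
      nlinarith [mul_pos hl0 hL0]
    rw [e1, Real.log_mul (by positivity) (by positivity),
      Real.log_mul (by positivity) (by positivity), Real.log_exp, Real.log_pow, Real.log_pow]
    have h5 := Real.log_nonneg hl.le
    have h6 := Real.log_two_lt_d9
    have h7 : 0 < 1 - l⁻¹ := sub_pos.2 (inv_lt_one_of_one_lt₀ hl)
    rw [div_le_iff₀ (by positivity)] at hn5
    have h8 := le_abs_self g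
    push_cast
    rw [div_eq_mul_inv]
    nlinarith
  have hE := Real.exp_pos ((g - 1) / 2)
  have h9 : 2 * Real.exp ((g - 1) / 2) / (l ^ 4 * n) ≤ Real.log Y / √Y := by
    refine le_trans ?_ hm
    rw [hs]
    refine le_trans (le_of_eq ?_) (div_le_div_of_nonneg_right hlog0 (by positivity))
    field_simp
  rw [div_le_div_iff₀ (by positivity) (Real.sqrt_pos.2 hY1)] at h9
  rw [div_le_iff₀ (by linarith)]
  have hsY := Real.sqrt_nonneg Y
  have h10 : l ^ 4 * (C * √Y) ≤ l ^ 4 * (2 * n * Real.log Y) := by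
    nlinarith [mul_le_mul_of_nonneg_right hC hsY]
  exact le_of_mul_le_mul_left h10 (by positivity)

theorem rad_bound {a b c P k : ℕ} (hb : 0 < b) (hP : 0 < P) (hk : 2 ^ k ∣ b)
    (h : ∀ q : ℕ, q.Prime → q ∣ a * c → q ∣ P) :
    (∏ q ∈ (a * b * c).primeFactors, q) * 2 ^ k ≤ 2 * P * b := by
  obtain ⟨t, rfl⟩ := hk
  have ht : 0 < t := Nat.pos_of_mul_pos_left hb
  have hd : ∏ q ∈ (a * (2 ^ k * t) * c).primeFactors, q ∣ 2 * P * t := by
    refine Finset.prod_primes_dvd _ (fun q hq => (Nat.prime_of_mem_primeFactors hq).prime)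
      fun q hq => ?_
    have hq1 := Nat.prime_of_mem_primeFactors hq
    have hq2 := Nat.dvd_of_mem_primeFactors hq
    rw [mul_right_comm] at hq2
    rcases (Nat.Prime.dvd_mul hq1).1 hq2 with h1 | h1
    · exact (h q hq1 h1).trans ((Dvd.intro_left _ rfl).trans (Dvd.intro _ rfl))
    · rcases (Nat.Prime.dvd_mul hq1).1 h1 with h1 | h1
      · exact (hq1.dvd_of_dvd_pow h1).trans ((Dvd.intro _ rfl).trans (Dvd.intro _ rfl))
      · exact h1.trans (Dvd.intro_left _ rfl)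
  have h1 := Nat.le_of_dvd (by positivity) hd
  calc _ ≤ 2 * P * t * 2 ^ k := Nat.mul_le_mul_right _ h1
    _ = _ := by ring

theorem engine_l {g : ℝ} (H : SV g) {l C : ℝ} (hl : 1 < l)
    (hC : C * l ^ 4 ≤ 4 * Real.exp ((g - 1) / 2)) (N : ℕ) :
    ∃ a b c n r : ℕ, 0 < b ∧ b < a ∧ Nat.Coprime a b ∧ a + b = c ∧ 16 ∣ b ∧ r.Prime ∧ N < r ∧
      r ∣ b ∧ N ≤ n ∧
      4 * ((∏ q ∈ (a * b * c).primeFactors, q : ℕ) : ℝ) * Real.exp (2 * n) < b ∧
      ∀ Y : ℝ, Real.exp 2 ≤ Y → Y ≤ Real.log c → C * √Y / Real.log Y ≤ 2 * n := by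
  obtain ⟨c0, d, hc0, H⟩ := H l hl
  have hl0 : 0 < l := by linarith
  have h2 : Tendsto (fun n : ℕ => Real.log (Nat.nth Nat.Prime n)) atTop atTop :=
    Real.tendsto_log_atTop.comp (tendsto_natCast_atTop_atTop.comp
      (Nat.nth_strictMono Nat.infinite_setOf_prime).tendsto_atTop)
  have hκ0 : 0 < l ^ 4 * Real.exp (1 - g) := by positivity
  obtain ⟨n, hn1, hn2, hn3, hn4, hn5, hn6, hn7⟩ := ((nth_le hl).and
    ((poly_le (c0 * (64 * l ^ 6 * (l ^ 4 * Real.exp (1 - g)) + 1) ^ d * (128 * l ^ 2) *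
      Real.exp 1) (8 * d + 4) hl).and
    ((eventually_ge_atTop (N + 4)).and ((h2.eventually_ge_atTop 1).and
    ((h2.eventually_ge_atTop ((|g| + 1) / (2 * (1 - l⁻¹)))).and
    ((tendsto_natCast_atTop_atTop.eventually_ge_atTop c0).and
    (tendsto_natCast_atTop_atTop.eventually_ge_atTop
      (2 * c0 / (l ^ 4 * Real.exp (1 - g)))))))))).exists
  have hxn := Nat.add_two_le_nth_prime n
  set x := Nat.nth Nat.Prime n with hx
  have hn4' : (4 : ℝ) ≤ n := by exact_mod_cast (by omega : 4 ≤ n)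
  have hx0 : (0 : ℝ) < x := by exact_mod_cast (by omega : 0 < x)
  set p : Fin n → ℕ := fun i => Nat.nth Nat.Prime (i + 1) with hp
  have hmono := Nat.nth_strictMono Nat.infinite_setOf_prime
  have hpx : ∀ i, p i ≤ x := fun i => hmono.monotone i.2
  have hpp : ∀ i, (p i).Prime := fun i => Nat.prime_nth_prime _
  have hp2 : ∀ i, p i ≠ 2 := fun i h => by
    have := hmono.injective (h.trans Nat.nth_prime_zero_eq_two.symm); omega
  have hP1 : 0 < ∏ i, p i := prod_pos fun i _ => (hpp i).pos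
  have hPb := P_bound (l := l) (L := Real.log x) (by positivity) n (by omega) p
    fun i => hn1 (i + 1) i.2
  set P := ∏ i, p i with hP
  have hP0 : (1 : ℝ) ≤ P := by exact_mod_cast hP1
  have he2 : 2 ≤ Real.exp (2 * n) := by linarith [Real.add_one_le_exp (2 * (n : ℝ))]
  have hP16 : 8 * 1 * 2 ≤ 8 * (P : ℝ) * Real.exp (2 * n) := by gcongr
  obtain ⟨k, hk1, hk2⟩ := exists_nat_pow_near (x := 8 * P * Real.exp (2 * n)) (y := 2)
    (by linarith) one_lt_two
  obtain ⟨r, hr, hr1, hr2⟩ := Nat.exists_prime_lt_and_le_two_mul x (by omega)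
  have hxL := hn1 n le_rfl
  rw [← hx] at hxL
  have hxb := x_bound hl0 hx0 (by positivity) hxL
  have hLx : Real.log x ≤ x := (Real.log_le_sub_one_of_pos hx0).trans (by linarith)
  obtain ⟨a, b, c, hb, hba, hab, habc, hmb, hq, hlog⟩ := H n (2 ^ (k + 1) * r) x p
    (Nat.mul_pos (by positivity) hr.pos) hpp
    (fun i j h => Fin.ext (by have := hmono.injective h; omega)) hp2
    (fun i => Nat.Coprime.mul_left
      (Nat.Coprime.pow_left _ ((Nat.coprime_primes Nat.prime_two (hpp i)).2 (hp2 i).symm))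
      ((Nat.coprime_primes hr (hpp i)).2 (by have := hpx i; omega)))
    hpx (l ^ 4 * Real.exp (1 - g) * n * Real.log x ^ 2) (by
      rw [div_le_iff₀ hκ0] at hn7
      have h3 : 1 * Real.log x ≤ Real.log x * Real.log x := by gcongr
      calc c0 * (Real.log x + 1) ≤ c0 * (2 * Real.log x ^ 2) := by gcongr; linarith
        _ = 2 * c0 * Real.log x ^ 2 := by ring
        _ ≤ n * (l ^ 4 * Real.exp (1 - g)) * Real.log x ^ 2 := by gcongr
        _ = _ := by ring) hn6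
    (size_bound hl0 hc0 (by linarith) hx0 hLx hxb
      (prod_nonneg fun i _ => Real.log_natCast_nonneg _) (by
        have := prod_le_pow_card (univ : Finset (Fin n)) (fun i => (Real.log (p i)).toNNReal)
          (Real.log x).toNNReal fun i _ => Real.toNNReal_le_toNNReal
            (Real.log_le_log (by exact_mod_cast (hpp i).pos) (by exact_mod_cast hpx i))
        have h3 := NNReal.coe_le_coe.2 this
        simpa [Real.log_natCast_nonneg] using h3) (Nat.cast_nonneg _) (by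
        have h3 : (r : ℝ) ≤ 2 * x := by exact_mod_cast hr2
        push_cast
        rw [pow_succ]
        exact mul_le_mul (by linarith) h3 (Nat.cast_nonneg _) (by positivity)) hPb hn2)
  have hkb : 2 ^ (k + 1) ∣ b := (Dvd.intro _ rfl).trans hmb
  have hk4 : 4 ≤ k + 1 := by
    have h3 : (2 : ℝ) ^ 4 < 2 ^ (k + 1) := by linarith
    exact ((pow_lt_pow_iff_right₀ one_lt_two).1 h3).le
  refine ⟨a, b, c, n, r, hb, hba, hab, habc, (pow_dvd_pow 2 hk4).trans hkb, hr, by omega,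
    (Dvd.intro_left _ rfl).trans hmb, by omega, ?_, fun Y h1 h2 =>
      tail_bound hl hC hx0 (by linarith) (by linarith) hxL hn5 h1 (h2.trans hlog)⟩
  have hrad := rad_bound hb hP1 hkb hq
  have hR : 0 < ∏ q ∈ (a * b * c).primeFactors, q :=
    prod_pos fun q hq => (Nat.prime_of_mem_primeFactors hq).pos
  set R := ∏ q ∈ (a * b * c).primeFactors, q
  have hr' : (R : ℝ) * 2 ^ (k + 1) ≤ 2 * P * b := by exact_mod_cast hrad
  have hR0 : (0 : ℝ) < R := by exact_mod_cast hR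
  have h3 := (mul_lt_mul_of_pos_left hk2 hR0).trans_le hr'
  have : (2 * P) * (4 * R * Real.exp (2 * n)) < (2 * P) * b := by linarith
  exact lt_of_mul_lt_mul_left this (by linarith)

theorem engine (C : ℝ) (hC : C < 4 * √(Real.exp 1)) (N : ℕ) :
    ∃ a b c n r : ℕ, 0 < b ∧ b < a ∧ Nat.Coprime a b ∧ a + b = c ∧ 16 ∣ b ∧ r.Prime ∧ N < r ∧
      r ∣ b ∧ N ≤ n ∧
      4 * ((∏ q ∈ (a * b * c).primeFactors, q : ℕ) : ℝ) * Real.exp (2 * n) < b ∧
      ∀ Y : ℝ, Real.exp 2 ≤ Y → Y ≤ Real.log c → C * √Y / Real.log Y ≤ 2 * n := by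
  have h2 : Tendsto (fun l : ℝ => C * l ^ 4) (𝓝[>] 1) (𝓝 (C * 1 ^ 4)) :=
    ((continuous_const.mul (continuous_pow 4)).tendsto 1).mono_left nhdsWithin_le_nhds
  rw [one_pow, mul_one] at h2
  obtain ⟨l, hl1, hl2⟩ := ((h2.eventually (gt_mem_nhds hC)).and self_mem_nhdsWithin).exists
  refine engine_l sv_two hl2 ?_ N
  rw [show ((2 : ℝ) - 1) / 2 = 1 / 2 by norm_num, Real.exp_half]
  exact hl1.le

end Pool.Agent.H231Z.Abc.M
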