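import Pool.Agent.H231Z.Abc.Engine

set_option autoImplicit false

/-!
Frey curves with a large discriminant.
-/

namespace Pool.Agent.H231Z.Abc.M

open Finset

theorem frey (α β : ℤ) (h : IsCoprime (4 * α - 1) (16 * β)) :
    ∃ W : WeierstrassCurve ℤ, W.Δ = ((4 * α - 1) * β * (4 * α - 1 + 16 * β)) ^ 2 ∧
      IsCoprime W.c₄ W.Δ := by
  refine ⟨⟨1, 4 * β - α, 0, -((4 * α - 1) * β), 0⟩, ?_⟩
  have e1 : (⟨1, 4 * β - α, 0, -((4 * α - 1) * β), 0⟩ : WeierstrassCurve ℤ).Δ =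
      ((4 * α - 1) * β * (4 * α - 1 + 16 * β)) ^ 2 := by
    simp only [WeierstrassCurve.Δ, WeierstrassCurve.b₂, WeierstrassCurve.b₄, WeierstrassCurve.b₆,
      WeierstrassCurve.b₈]
    ring
  have e2 : (⟨1, 4 * β - α, 0, -((4 * α - 1) * β), 0⟩ : WeierstrassCurve ℤ).c₄ =
      (4 * α - 1) ^ 2 + (4 * α - 1) * (16 * β) + (16 * β) ^ 2 := by
    simp only [WeierstrassCurve.c₄, WeierstrassCurve.b₂, WeierstrassCurve.b₄]
    ring
  refine ⟨e1, ?_⟩
  rw [e1, e2]
  set A := 4 * α - 1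
  set B := 16 * β with hB
  refine IsCoprime.pow_right (IsCoprime.mul_right (IsCoprime.mul_right ?_ ?_) ?_)
  · have : A ^ 2 + A * B + B ^ 2 = B ^ 2 + A * (A + B) := by ring
    rw [this]
    exact (h.symm.pow_left).add_mul_left_left _
  · have : A ^ 2 + A * B + B ^ 2 = A ^ 2 + β * (16 * (A + B)) := by rw [hB]; ring
    rw [this]
    exact ((IsCoprime.of_mul_right_right h).pow_left).add_mul_left_left _
  · have : A ^ 2 + A * B + B ^ 2 = B ^ 2 + (A + B) * A := by ring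
    rw [this]
    have h1 : IsCoprime B (A + B) := by
      simpa using h.symm.add_mul_left_right 1
    exact (h1.pow_left).add_mul_left_left _

theorem frey_nat {a β c : ℕ} (h : Nat.Coprime a (16 * β)) (hc : a + 16 * β = c) :
    ∃ W : WeierstrassCurve ℤ, W.Δ = ((a * β * c : ℕ) : ℤ) ^ 2 ∧ IsCoprime W.c₄ W.Δ := by
  have h2 : Nat.Coprime a 2 := Nat.Coprime.coprime_dvd_right ⟨8 * β, by ring⟩ h
  have h3 : a % 2 = 1 := Nat.odd_iff.1 (Nat.coprime_two_right.1 h2)
  have hz : IsCoprime (a : ℤ) (16 * β) := by exact_mod_cast Nat.isCoprime_iff_coprime.2 h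
  by_cases h4 : a % 4 = 3
  · have e : (4 * ((a + 1 : ℤ) / 4) - 1) = a := by omega
    obtain ⟨W, h5, h6⟩ := frey ((a + 1 : ℤ) / 4) β (by rwa [e])
    refine ⟨W, ?_, h6⟩
    rw [h5, e, ← hc]; push_cast; ring
  · have e : (4 * ((1 - (a + 16 * β) : ℤ) / 4) - 1) = -(a + 16 * β) := by omega
    obtain ⟨W, h5, h6⟩ := frey ((1 - (a + 16 * β) : ℤ) / 4) β (by
      rw [e]
      simpa using (hz.add_mul_left_left 1).neg_left)
    refine ⟨W, ?_, h6⟩
    rw [h5, e, ← hc]; push_cast; ring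

theorem szpiro (C : ℝ) (hC : C < 24 * √(Real.exp 1)) (M : ℕ) :
    ∃ W : WeierstrassCurve ℤ, 0 < W.Δ ∧ IsCoprime W.c₄ W.Δ ∧
      M < ∏ p ∈ W.Δ.natAbs.primeFactors, p ∧
      ((∏ p ∈ W.Δ.natAbs.primeFactors, p : ℕ) : ℝ) ^ 6 *
        Real.exp (C * √(Real.log (∏ p ∈ W.Δ.natAbs.primeFactors, p : ℕ)) /
          Real.log (Real.log (∏ p ∈ W.Δ.natAbs.primeFactors, p : ℕ))) < (W.Δ.natAbs : ℝ) := by
  obtain ⟨a, b, c, n, r, hb, hba, hab, habc, ⟨β, rfl⟩, hr, hMr, hrb, -, hrad, hY⟩ :=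
    engine (C / 6) (by linarith) (M + 6561)
  obtain ⟨W, h1, h2⟩ := frey_nat hab habc
  have hβ : 0 < β := by omega
  have ha : 0 < a := by omega
  have hc : 0 < c := by omega
  have e1 : W.Δ.natAbs = (a * β * c) ^ 2 := by rw [h1, Int.natAbs_pow, Int.natAbs_natCast]
  refine ⟨W, by rw [h1]; positivity, h2, ?_⟩
  rw [e1, Nat.primeFactors_pow _ two_ne_zero]
  have hrβ : r ∣ β := by
    refine ((Nat.Prime.dvd_mul hr).1 hrb).resolve_left fun h => ?_
    have := Nat.le_of_dvd (by norm_num) h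
    omega
  have hN0 : 0 < ∏ p ∈ (a * β * c).primeFactors, p :=
    prod_pos fun q hq => (Nat.prime_of_mem_primeFactors hq).pos
  have hrN : r ≤ ∏ p ∈ (a * β * c).primeFactors, p :=
    Nat.le_of_dvd hN0 (dvd_prod_of_mem _ (hr.mem_primeFactors
      ((hrβ.mul_left a).mul_right c) (by positivity)))
  have hNR : ∏ p ∈ (a * β * c).primeFactors, p ≤ ∏ p ∈ (a * (16 * β) * c).primeFactors, p :=
    prod_le_prod_of_subset_of_one_le' (Nat.primeFactors_mono ⟨16, by ring⟩ (by positivity))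
      fun q hq _ => (Nat.prime_of_mem_primeFactors hq).pos
  set N := ∏ p ∈ (a * β * c).primeFactors, p
  refine ⟨by omega, ?_⟩
  have hN1 : (6561 : ℝ) ≤ N := by exact_mod_cast (by omega : 6561 ≤ N)
  have hNR' : (N : ℝ) ≤ (∏ p ∈ (a * (16 * β) * c).primeFactors, p : ℕ) := by exact_mod_cast hNR
  have hE : 1 ≤ Real.exp (2 * n) := Real.one_le_exp (by positivity)
  have h3 : (N : ℝ) * Real.exp (2 * n) < 4 * β := by
    have h4 := mul_le_mul_of_nonneg_right hNR' (Real.exp_pos (2 * n)).le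
    rw [Nat.cast_mul 16 β] at hrad
    push_cast at hrad h4 ⊢
    linarith
  have hβa : (16 : ℝ) * β ≤ a := by exact_mod_cast hba.le
  have hβc : (16 : ℝ) * β ≤ c := by exact_mod_cast (by omega : 16 * β ≤ c)
  have hβ0 : (0 : ℝ) < β := by exact_mod_cast hβ
  have h5 := hY (Real.log N) (by
      rw [Real.le_log_iff_exp_le (by linarith)]
      have h6 : Real.exp 2 ≤ (8 : ℕ) := by
        have h7 : Real.exp 2 = Real.exp 1 * Real.exp 1 := by rw [← Real.exp_add]; norm_num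
        have h8 := Real.exp_one_lt_d9
        have h9 := Real.exp_pos 1
        push_cast
        nlinarith
      refine (Real.exp_le_exp.2 h6).trans ?_
      rw [← mul_one ((8 : ℕ) : ℝ), Real.exp_nat_mul]
      refine le_trans (pow_le_pow_left₀ (Real.exp_pos 1).le Real.exp_one_lt_three.le 8) ?_
      linarith)
    (Real.log_le_log (by linarith) (by nlinarith))
  have h6 : Real.exp (C * √(Real.log N) / Real.log (Real.log N)) ≤ Real.exp (2 * n) ^ 6 := by
    rw [← Real.exp_nat_mul, Real.exp_le_exp]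
    have : C * √(Real.log N) / Real.log (Real.log N) =
        6 * (C / 6 * √(Real.log N) / Real.log (Real.log N)) := by ring
    rw [this]
    push_cast
    linarith
  calc _ ≤ (N : ℝ) ^ 6 * Real.exp (2 * n) ^ 6 := by gcongr
    _ = (N * Real.exp (2 * n)) ^ 6 := by ring
    _ < (4 * β) ^ 6 := by gcongr
    _ ≤ ((16 * β) * β * (16 * β)) ^ 2 := by
      have : (0 : ℝ) < β ^ 6 := by positivity
      nlinarith
    _ ≤ (a * β * c) ^ 2 := by gcongr
    _ = _ := by push_cast; ring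

end Pool.Agent.H231Z.Abc.M
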