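import Mathlib

set_option autoImplicit false

/-!
A discrete, truncated logistic distribution.
-/

namespace Pool.Agent.H231Z.Abc

open Finset

noncomputable def G (η A : ℝ) (k : ℕ) : ℝ := (1 + η) ^ k / (A + (1 + η) ^ k)

theorem G_pos {η A : ℝ} (hη : 0 < η) (hA : 0 < A) (k : ℕ) : 0 < G η A k := by
  unfold G; positivity

theorem G_lt_one {η A : ℝ} (hη : 0 < η) (hA : 0 < A) (k : ℕ) : G η A k < 1 := by
  unfold G; rw [div_lt_one (by positivity)]; linarith

theorem G_step {η A : ℝ} (hη : 0 < η) (hA : 0 < A) (k : ℕ) :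
    G η A (k + 1) - G η A k = η * (G η A k * (1 - G η A (k + 1))) := by
  unfold G
  have h : 0 < (1 + η) ^ k := by positivity
  rw [pow_succ]
  field_simp
  ring

theorem G_le {η A : ℝ} (hη : 0 < η) (hA : 0 < A) (k : ℕ) :
    G η A (k + 1) ≤ (1 + η) * G η A k := by
  have h1 := G_step hη hA k
  have h2 := G_pos hη hA k
  have h3 := G_pos hη hA (k + 1)
  nlinarith [mul_pos hη (mul_pos h2 h3)]

theorem tangent {a b σ : ℝ} (ha : 0 < a) (hb : 0 ≤ b) (hσ : 0 ≤ σ) :
    (1 + σ) * ((b - a) * a ^ σ) ≤ b ^ (1 + σ) - a ^ (1 + σ) := by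
  have h := one_add_mul_self_le_rpow_one_add (s := b / a - 1)
    (by have : 0 ≤ b / a := by positivity
        linarith) (p := 1 + σ) (by linarith)
  rw [add_sub_cancel, Real.div_rpow hb ha.le, le_div_iff₀ (Real.rpow_pos_of_pos ha _)] at h
  have e : a ^ (1 + σ) = a * a ^ σ := by rw [Real.rpow_add ha, Real.rpow_one]
  rw [e] at h ⊢
  have : (1 + (1 + σ) * (b / a - 1)) * (a * a ^ σ) =
      a * a ^ σ + (1 + σ) * ((b - a) * a ^ σ) := by field_simp
  linarith

theorem renyi {η A s : ℝ} (hη : 0 < η) (hA : 0 < A) (hs : 0 ≤ s) (K : ℕ) :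
    ∑ k ∈ range K, (G η A (k + 1) - G η A k) ^ (1 + s) ≤ η ^ s / (1 + 2 * s) := by
  have key : ∀ k, (1 + 2 * s) * (G η A (k + 1) - G η A k) ^ (1 + s) ≤
      η ^ s / 2 * ((G η A (k + 1) ^ (1 + 2 * s) - (1 - G η A (k + 1)) ^ (1 + 2 * s)) -
        (G η A k ^ (1 + 2 * s) - (1 - G η A k) ^ (1 + 2 * s))) := by
    intro k
    have h0 := G_pos hη hA k
    have h1 : 0 < 1 - G η A (k + 1) := sub_pos.2 (G_lt_one hη hA _)
    have h1' : 0 < 1 - G η A k := sub_pos.2 (G_lt_one hη hA _)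
    have hd : 0 < G η A (k + 1) - G η A k := by rw [G_step hη hA]; positivity
    have t1 := tangent h0 (G_pos hη hA (k + 1)).le (σ := 2 * s) (by linarith)
    have t2 := tangent h1 h1'.le (σ := 2 * s) (by linarith)
    have e : (G η A (k + 1) - G η A k) ^ s =
        η ^ s * (G η A k ^ s * (1 - G η A (k + 1)) ^ s) := by
      rw [G_step hη hA, Real.mul_rpow hη.le (by positivity), Real.mul_rpow h0.le h1.le]
    rw [Real.rpow_add hd, Real.rpow_one, e]
    have e1 : G η A k ^ (2 * s) = (G η A k ^ s) ^ 2 := by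
      rw [mul_comm, Real.rpow_mul h0.le, Real.rpow_two]
    have e2 : (1 - G η A (k + 1)) ^ (2 * s) = ((1 - G η A (k + 1)) ^ s) ^ 2 := by
      rw [mul_comm, Real.rpow_mul h1.le, Real.rpow_two]
    rw [e1] at t1
    rw [e2] at t2
    set x := G η A k ^ s
    set y := (1 - G η A (k + 1)) ^ s
    set d := G η A (k + 1) - G η A k with hdd
    have e3 : 1 - G η A k - (1 - G η A (k + 1)) = d := by rw [hdd]; ring
    rw [e3] at t2
    have hη' : 0 < η ^ s := Real.rpow_pos_of_pos hη s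
    have h5 : (1 + 2 * s) * (d * (η ^ s * (x * y))) ≤
        η ^ s / 2 * ((1 + 2 * s) * (d * x ^ 2) + (1 + 2 * s) * (d * y ^ 2)) := by
      have : 0 ≤ η ^ s / 2 * ((1 + 2 * s) * (d * (x - y) ^ 2)) := by positivity
      nlinarith
    refine h5.trans (mul_le_mul_of_nonneg_left (by linarith) (by positivity))
  have h := sum_le_sum (s := range K) fun k _ => key k
  rw [← mul_sum, ← mul_sum, sum_range_sub
    (fun k => G η A k ^ (1 + 2 * s) - (1 - G η A k) ^ (1 + 2 * s))] at h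
  rw [le_div_iff₀ (by linarith), mul_comm]
  refine h.trans ?_
  have b1 : G η A K ^ (1 + 2 * s) ≤ 1 :=
    Real.rpow_le_one (G_pos hη hA _).le (G_lt_one hη hA _).le (by linarith)
  have b2 : (1 - G η A 0) ^ (1 + 2 * s) ≤ 1 :=
    Real.rpow_le_one (sub_pos.2 (G_lt_one hη hA _)).le (by linarith [G_pos hη hA 0]) (by linarith)
  have b3 : 0 ≤ (1 - G η A K) ^ (1 + 2 * s) :=
    Real.rpow_nonneg (sub_pos.2 (G_lt_one hη hA _)).le _
  have b4 : 0 ≤ G η A 0 ^ (1 + 2 * s) := Real.rpow_nonneg (G_pos hη hA _).le _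
  have hη' : 0 < η ^ s := Real.rpow_pos_of_pos hη s
  nlinarith

theorem moment {η A : ℝ} (hη : 0 < η) (hA : 0 < A) (K : ℕ) :
    ∑ τ ∈ range K, ∑ k ∈ range K, (G η A (k + 1) - G η A k) *
      ((if τ < k then 1 else 0) - (1 - G η A (τ + 1))) ^ 2 ≤
      (1 + η) / η * (G η A K - G η A 0) := by
  rw [← sum_range_sub (G η A), mul_sum]
  refine sum_le_sum fun τ hτ => ?_
  have hτ' : τ + 1 ≤ K := mem_range.1 hτ
  rw [← sum_range_add_sum_Ico _ hτ']
  have e1 : ∑ k ∈ range (τ + 1), (G η A (k + 1) - G η A k) *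
      ((if τ < k then 1 else 0) - (1 - G η A (τ + 1))) ^ 2 =
      (G η A (τ + 1) - G η A 0) * (1 - G η A (τ + 1)) ^ 2 := by
    rw [← sum_range_sub (G η A), sum_mul]
    refine sum_congr rfl fun k hk => ?_
    rw [if_neg (by have := mem_range.1 hk; omega)]; ring
  have e2 : ∑ k ∈ Ico (τ + 1) K, (G η A (k + 1) - G η A k) *
      ((if τ < k then 1 else 0) - (1 - G η A (τ + 1))) ^ 2 =
      (G η A K - G η A (τ + 1)) * (G η A (τ + 1)) ^ 2 := by
    rw [← sum_Ico_sub (G η A) hτ', sum_mul]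
    refine sum_congr rfl fun k hk => ?_
    rw [if_pos (by have := (mem_Ico.1 hk).1; omega)]; ring
  rw [e1, e2, G_step hη hA τ]
  have e3 : (1 + η) / η * (η * (G η A τ * (1 - G η A (τ + 1)))) =
      ((1 + η) * G η A τ) * (1 - G η A (τ + 1)) := by field_simp
  rw [e3]
  have h0 := G_pos hη hA 0
  have h1 := G_lt_one hη hA K
  have h2 := G_pos hη hA (τ + 1)
  have h3 := sub_pos.2 (G_lt_one hη hA (τ + 1))
  have h4 := mul_le_mul_of_nonneg_right (G_le hη hA τ) h3.le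
  set g := G η A (τ + 1)
  have h5 : (g - G η A 0) * (1 - g) ^ 2 ≤ g * (1 - g) ^ 2 :=
    mul_le_mul_of_nonneg_right (by linarith) (sq_nonneg _)
  have h6 : (G η A K - g) * g ^ 2 ≤ (1 - g) * g ^ 2 :=
    mul_le_mul_of_nonneg_right (by linarith) (sq_nonneg _)
  nlinarith

theorem mass {η z : ℝ} (hη : 0 < η) (hz0 : 0 < z) (hz : z < 1) (K : ℕ)
    (hK : ((1 + z) / (1 - z)) ^ 2 ≤ K * η) :
    z ≤ G η ((1 + z) / (1 - z)) K - G η ((1 + z) / (1 - z)) 0 := by
  set A := (1 + z) / (1 - z) with hA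
  have h1 : 0 < 1 - z := by linarith
  have hA0 : 0 < A := by positivity
  have h2 : A ^ 2 ≤ (1 + η) ^ K := by
    have := one_add_mul_le_pow (a := η) (by linarith) K
    linarith
  have h3 : A / (A + 1) ≤ G η A K := by
    unfold G
    rw [div_le_div_iff₀ (by positivity) (by positivity)]
    nlinarith
  have h4 : G η A 0 = 1 / (A + 1) := by simp [G]
  have h5 : A / (A + 1) - 1 / (A + 1) = z := by
    rw [hA]; field_simp; ring
  linarith

theorem logistic {η z s : ℝ} (hη : 0 < η) (hz0 : 0 < z) (hz : z < 1) (hs : 0 ≤ s) (K : ℕ)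
    (hK : ((1 + z) / (1 - z)) ^ 2 ≤ K * η) :
    ∃ p l : Fin K → ℝ, (∀ k, 0 < p k) ∧ ∑ k, p k = 1 ∧
      ∑ τ, ∑ k, p k * ((if τ < k then 1 else 0) - l τ) ^ 2 ≤ (1 + η) / η ∧
      ∑ k, p k ^ (1 + s) ≤ η ^ s / ((1 + 2 * s) * z ^ (1 + s)) := by
  have hZ := mass hη hz0 hz K hK
  set A := (1 + z) / (1 - z) with hA
  have h1 : 0 < 1 - z := by linarith
  have hA0 : 0 < A := by positivity
  set Z := G η A K - G η A 0 with hZd
  have hZ0 : 0 < Z := hz0.trans_le hZ
  have hd : ∀ k, 0 < G η A (k + 1) - G η A k := fun k => by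
    have h0 := G_pos hη hA0 k
    have h1 : 0 < 1 - G η A (k + 1) := sub_pos.2 (G_lt_one hη hA0 _)
    rw [G_step hη hA0]; positivity
  refine ⟨fun k => (G η A (k + 1) - G η A k) / Z, fun τ => 1 - G η A (τ + 1),
    fun k => div_pos (hd k) hZ0, ?_, ?_, ?_⟩
  · rw [← sum_div, Fin.sum_univ_eq_sum_range (fun k => G η A (k + 1) - G η A k), sum_range_sub,
      div_self hZ0.ne']
  · have h := moment hη hA0 K
    rw [← div_le_iff₀ hZ0, sum_div, ← Fin.sum_univ_eq_sum_range] at h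
    refine le_trans (le_of_eq (sum_congr rfl fun τ _ => ?_)) h
    rw [sum_div, ← Fin.sum_univ_eq_sum_range]
    refine sum_congr rfl fun k _ => ?_
    simp only [Fin.lt_def]
    ring
  · have h := renyi hη hA0 hs K
    rw [← Fin.sum_univ_eq_sum_range] at h
    simp only [Real.div_rpow (hd _).le hZ0.le]
    rw [← sum_div, ← div_div]
    have h2 : z ^ (1 + s) ≤ Z ^ (1 + s) := Real.rpow_le_rpow hz0.le hZ (by linarith)
    have h3 : 0 < z ^ (1 + s) := Real.rpow_pos_of_pos hz0 _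
    exact div_le_div₀ (by positivity) h h3 h2

end Pool.Agent.H231Z.Abc
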