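import Pool.Agent.H231Z.Abc.Short

set_option autoImplicit false

/-!
The triple attached to two close points, for a general modulus.
-/

namespace Pool.Agent.H231Z.Abc.M

open Finset

theorem triple_aux {ι : Type} [Fintype ι] (m : ℕ) (p : ι → ℕ) (hp : ∀ i, (p i).Prime)
    (hinj : Function.Injective p) (hodd : ∀ i, Nat.Coprime m (p i)) (u v : ι → ℕ)
    (hlt : ∏ i, p i ^ u i < ∏ i, p i ^ v i)
    (hmod : ((∏ i, p i ^ u i : ℕ) : ZMod m) = (∏ i, p i ^ v i : ℕ))
    (hlog : Nat.log 2 (∏ i, p i ^ u i) = Nat.log 2 (∏ i, p i ^ v i)) :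
    ∃ a b c : ℕ, 0 < b ∧ b < a ∧ Nat.Coprime a b ∧ a + b = c ∧ m ∣ b ∧
      (∀ q : ℕ, q.Prime → q ∣ a * c → q ∣ ∏ i, p i) ∧
      2 * Real.log c ≤ Real.log 2 + ∑ i, Real.log (p i) * |(u i : ℝ) - (v i : ℝ)| := by
  set a := ∏ i, p i ^ (u i - v i) with ha
  set c := ∏ i, p i ^ (v i - u i) with hc
  set g := ∏ i, p i ^ (min (u i) (v i)) with hg
  have hp0 : ∀ i, 0 < p i := fun i => (hp i).pos
  have ha0 : 0 < a := prod_pos fun i _ => pow_pos (hp0 i) _
  have hc0 : 0 < c := prod_pos fun i _ => pow_pos (hp0 i) _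
  have hg0 : 0 < g := prod_pos fun i _ => pow_pos (hp0 i) _
  have e1 : ∏ i, p i ^ u i = g * a := by
    rw [hg, ha, ← prod_mul_distrib]
    exact prod_congr rfl fun i _ => by rw [← pow_add]; congr 1; omega
  have e2 : ∏ i, p i ^ v i = g * c := by
    rw [hg, hc, ← prod_mul_distrib]
    exact prod_congr rfl fun i _ => by rw [← pow_add]; congr 1; omega
  rw [e1, e2] at hlt hmod hlog
  have hac : a < c := lt_of_mul_lt_mul_left hlt (Nat.zero_le _)
  have hcop : Nat.Coprime a c := by
    refine Nat.Coprime.prod_left fun i _ => Nat.Coprime.prod_right fun j _ => ?_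
    by_cases hij : i = j
    · subst hij
      rcases le_total (u i) (v i) with h | h
      · simp [Nat.sub_eq_zero_of_le h]
      · simp [Nat.sub_eq_zero_of_le h]
    · exact Nat.Coprime.pow _ _ ((Nat.coprime_primes (hp i) (hp j)).2 fun h => hij (hinj h))
  have hg2 : Nat.Coprime m g :=
    Nat.Coprime.prod_right fun j _ => Nat.Coprime.pow_right _ (hodd j)
  have hdvd : m ∣ c - a := by
    have := (Nat.modEq_iff_dvd' hlt.le).1 ((ZMod.natCast_eq_natCast_iff _ _ _).1 hmod)
    rw [← Nat.mul_sub] at this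
    exact hg2.dvd_of_dvd_mul_left this
  have hc2 : c < 2 * a := by
    have h1 := Nat.lt_pow_succ_log_self (b := 2) one_lt_two (g * c)
    have h2 := Nat.pow_log_le_self 2 (Nat.mul_pos hg0 ha0).ne'
    rw [← hlog, Nat.pow_succ] at h1
    have : g * c < g * (2 * a) := by nlinarith
    exact lt_of_mul_lt_mul_left this (Nat.zero_le _)
  refine ⟨a, c - a, c, by omega, by omega, ?_, by omega, hdvd, ?_, ?_⟩
  · exact (Nat.coprime_sub_self_right hac.le).2 hcop
  · intro q hq1 hq2
    have hP' : ∀ f : ι → ℕ, q ∣ ∏ i, p i ^ f i → q ∣ ∏ i, p i := by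
      intro f hf
      obtain ⟨i, _, hi⟩ := (Prime.dvd_finsetProd_iff hq1.prime _).1 hf
      exact (hq1.dvd_of_dvd_pow hi).trans (dvd_prod_of_mem p (mem_univ i))
    rcases (Nat.Prime.dvd_mul hq1).1 hq2 with h | h
    · exact hP' _ h
    · exact hP' _ h
  · have e3 : Real.log a + Real.log c = ∑ i, Real.log (p i) * |(u i : ℝ) - (v i : ℝ)| := by
      rw [ha, hc]
      push_cast
      rw [Real.log_prod (fun i _ => by have := hp0 i; positivity),
        Real.log_prod (fun i _ => by have := hp0 i; positivity), ← sum_add_distrib]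
      refine sum_congr rfl fun i _ => ?_
      rw [Real.log_pow, Real.log_pow]
      rcases le_total (u i) (v i) with h | h
      · rw [Nat.sub_eq_zero_of_le h, Nat.cast_sub h, abs_sub_comm,
          abs_of_nonneg (sub_nonneg.2 (by exact_mod_cast h))]
        simp [mul_comm]
      · rw [Nat.sub_eq_zero_of_le h, Nat.cast_sub h,
          abs_of_nonneg (sub_nonneg.2 (by exact_mod_cast h))]
        simp [mul_comm]
    have h4 : Real.log c ≤ Real.log 2 + Real.log a := by
      rw [← Real.log_mul (by norm_num) (by positivity)]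
      exact Real.log_le_log (by positivity) (by exact_mod_cast hc2.le)
    linarith

theorem triple {ι : Type} [Fintype ι] (m : ℕ) (p : ι → ℕ) (hp : ∀ i, (p i).Prime)
    (hinj : Function.Injective p) (hodd : ∀ i, Nat.Coprime m (p i)) (u v : ι → ℕ) (huv : u ≠ v)
    (hmod : ((∏ i, p i ^ u i : ℕ) : ZMod m) = (∏ i, p i ^ v i : ℕ))
    (hlog : Nat.log 2 (∏ i, p i ^ u i) = Nat.log 2 (∏ i, p i ^ v i)) :
    ∃ a b c : ℕ, 0 < b ∧ b < a ∧ Nat.Coprime a b ∧ a + b = c ∧ m ∣ b ∧
      (∀ q : ℕ, q.Prime → q ∣ a * c → q ∣ ∏ i, p i) ∧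
      2 * Real.log c ≤ Real.log 2 + ∑ i, Real.log (p i) * |(u i : ℝ) - (v i : ℝ)| := by
  rcases lt_trichotomy (∏ i, p i ^ u i) (∏ i, p i ^ v i) with h | h | h
  · exact triple_aux m p hp hinj hodd u v h hmod hlog
  · exfalso
    apply huv
    funext i
    have key : ∀ f : ι → ℕ, (∏ j, p j ^ f j).factorization (p i) = f i := by
      intro f
      rw [Nat.factorization_prod fun j _ => pow_ne_zero _ (hp j).ne_zero, Finsupp.finset_sum_apply,
        sum_eq_single i]
      · simp [(hp i).factorization_pow]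
      · intro j _ hj
        rw [(hp j).factorization_pow, Finsupp.single_eq_of_ne fun h => hj (hinj h).symm]
      · simp
    rw [← key u, ← key v, h]
  · have := triple_aux m p hp hinj hodd v u h hmod.symm hlog.symm
    simpa only [abs_sub_comm] using this

/-- the short vector statement with constant `exp g` -/
def SV (g : ℝ) : Prop :=
  ∀ l : ℝ, 1 < l → ∃ (c : ℝ) (d : ℕ), 0 < c ∧ ∀ (n m x : ℕ) (p : Fin n → ℕ), 0 < m →
    (∀ i, (p i).Prime) → Function.Injective p → (∀ i, p i ≠ 2) → (∀ i, Nat.Coprime m (p i)) →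
    (∀ i, p i ≤ x) → ∀ T : ℝ, c * (Real.log x + 1) ≤ T →
    c ≤ n → c * (n * x * T + 1) ^ d * m * ∏ i, Real.log (p i) ≤ (T * Real.exp g / l ^ 2) ^ n →
    ∃ a b c : ℕ, 0 < b ∧ b < a ∧ Nat.Coprime a b ∧ a + b = c ∧ m ∣ b ∧
      (∀ q : ℕ, q.Prime → q ∣ a * c → q ∣ ∏ i, p i) ∧ Real.log c ≤ l ^ 2 * n * T

theorem sv_two : SV 2 := by
  intro l hl
  have hl0 : 0 < l := by linarith
  set r := Real.log l with hr
  have hr0 : 0 < r := Real.log_pos hl
  set s := r / 4 with hs
  have hs0 : 0 < s := by positivity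
  set z := Real.exp (-(r ^ 2 / (4 * (1 + s)))) with hz
  have hz0 : 0 < z := Real.exp_pos _
  have hz1 : z < 1 := Real.exp_lt_one_iff.2 (neg_lt_zero.2 (by positivity))
  set e := (1 - l⁻¹) / 4 with he
  have hli : l⁻¹ < 1 := inv_lt_one_of_one_lt₀ hl
  have he0 : 0 < e := by rw [he]; linarith
  set A := ((1 + z) / (1 - z)) ^ 2 with hA
  have hA0 : 0 ≤ A := sq_nonneg _
  set E := e * e ^ s⁻¹ with hE
  have hE0 : 0 < E := by positivity
  have hl1 : 0 < l - 1 := by linarith
  refine ⟨(A + 1) / E + 3 / (l - 1) + 1, 1, by positivity,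
    fun n m x p hm hp hinj hodd hcop hpx T hT hn hB => ?_⟩
  haveI : NeZero m := ⟨hm.ne'⟩
  have hc1 : 0 < (A + 1) / E := by positivity
  have hc2 : 0 < 3 / (l - 1) := by positivity
  have hL0 : 0 ≤ Real.log x := Real.log_natCast_nonneg x
  have hT1 : 1 ≤ T := by nlinarith
  have hT2 : 3 * (Real.log x + 1) ≤ T * (l - 1) := by
    rw [← div_le_iff₀ hl1, mul_div_right_comm]; nlinarith
  have hn1 : (1 : ℝ) ≤ n := by linarith
  set K := ⌈A * T⌉₊ with hK
  have hw1 : ∀ i, 1 ≤ Real.log (p i) := fun i => by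
    have h3 : 3 ≤ p i := by have := (hp i).two_le; have := hodd i; omega
    have h4 : (3 : ℝ) ≤ p i := by exact_mod_cast h3
    rw [Real.le_log_iff_exp_le (by linarith)]
    linarith [Real.exp_one_lt_three]
  have hwx : ∑ i, Real.log (p i) ≤ n * Real.log x := by
    have := sum_le_card_nsmul (univ : Finset (Fin n)) (fun i => Real.log (p i)) (Real.log x)
      fun i _ => Real.log_le_log (by exact_mod_cast (hp i).pos) (by exact_mod_cast hpx i)
    simpa using this
  have hlog : ∀ u : Fin n → Fin K, Nat.log 2 (∏ i, p i ^ (u i : ℕ)) < K * n * x + 1 := by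
    intro u
    have h1 : ∏ i, p i ^ (u i : ℕ) ≤ ((2 ^ x) ^ K) ^ n := by
      have := prod_le_pow_card (univ : Finset (Fin n)) (fun i => p i ^ (u i : ℕ)) ((2 ^ x) ^ K)
        fun i _ => (Nat.pow_le_pow_left ((hpx i).trans Nat.lt_two_pow_self.le) _).trans
          (Nat.pow_le_pow_right (by positivity) (u i).2.le)
      simpa using this
    rw [← pow_mul, ← pow_mul] at h1
    have h2 := Nat.log_mono_right (b := 2) h1
    rw [Nat.log_pow one_lt_two] at h2
    have : x * (K * n) = K * n * x := by ring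
    omega
  obtain ⟨u, v, huv, hcls, hd⟩ := short (β := ZMod m × Fin (K * n * x + 1)) K
    (fun i => Real.log (p i)) hw1 T (Real.exp 2 / l ^ 2) z s e (2 * l * n * T) (by linarith)
    (by positivity) hz0 hz1 hs0 he0 (by positivity) (Nat.le_ceil _) (by
      have e1 : Real.exp 2 / l ^ 2 = Real.exp (2 - 2 * r) := by
        rw [Real.exp_sub, mul_comm 2 r, Real.exp_mul, hr, Real.exp_log hl0, Real.rpow_two]
      have h1 : Real.exp (2 * s - 4 * s ^ 2) ≤ 1 + 2 * s := by
        rw [← Real.le_log_iff_exp_le (by positivity)]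
        refine le_trans ?_ (Real.one_sub_inv_le_log_of_pos (by positivity))
        have : (1 + 2 * s)⁻¹ ≤ 1 - 2 * s + 4 * s ^ 2 := by
          rw [inv_le_iff_one_le_mul₀ (by positivity)]; nlinarith [pow_pos hs0 3]
        linarith
      rw [e1, hz, ← Real.exp_mul, ← Real.exp_mul]
      refine le_trans (le_of_eq ?_) (mul_le_mul_of_nonneg_right h1 (Real.exp_pos _).le)
      rw [← Real.exp_add]
      congr 1
      field_simp
      rw [hs]; ring)
    (by
      rw [Fintype.card_prod, ZMod.card, Fintype.card_fin, Fintype.card_fin, ← mul_div_assoc]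
      refine le_trans ?_ (mul_le_mul_of_nonneg_left hB hE0.le)
      have hP : 0 ≤ ∏ i, Real.log (p i) := prod_nonneg fun i _ => Real.log_natCast_nonneg _
      have hK1 : (K : ℝ) ≤ (A + 1) * T := by
        have := (Nat.ceil_lt_add_one (by positivity : 0 ≤ A * T)).le
        linarith
      have h2 : ((K * n * x + 1 : ℕ) : ℝ) ≤ (A + 1) * (n * x * T + 1) := by
        push_cast
        have : (K : ℝ) * (n * x) ≤ (A + 1) * T * (n * x) := by gcongr
        nlinarith
      have h3 : A + 1 ≤ E * ((A + 1) / E + 3 / (l - 1) + 1) := by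
        have : E * ((A + 1) / E) = A + 1 := by field_simp
        nlinarith
      rw [Nat.cast_mul, pow_one]
      calc _ ≤ m * (E * ((A + 1) / E + 3 / (l - 1) + 1) * (n * x * T + 1)) *
            ∏ i, Real.log (p i) := by
            gcongr
            exact h2.trans (by gcongr)
        _ = _ := by ring)
    (by
      rw [Fintype.card_fin]
      have e1 : 2 * l * n * T * (1 - 2 * e) = (l + 1) * n * T := by rw [he]; field_simp; ring
      rw [e1]
      nlinarith [mul_le_mul_of_nonneg_left hT2 (by linarith : (0 : ℝ) ≤ n)])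
    (fun u => (((∏ i, p i ^ (u i : ℕ) : ℕ) : ZMod m), ⟨_, hlog u⟩))
  obtain ⟨a, b, c, ha, hb, hab, habc, hk, hrad, hc⟩ := triple m p hp hinj hcop (fun i => u i)
    (fun i => v i) (fun h => huv (funext fun i => Fin.ext (congrFun h i)))
    (congrArg Prod.fst hcls) (congrArg (fun y => (y.2 : ℕ)) hcls)
  refine ⟨a, b, c, ha, hb, hab, habc, hk, hrad, ?_⟩
  have h5 := Real.log_two_lt_d9
  have h6 : 3 ≤ T * (l - 1) := by linarith
  have h7 : 1 * 3 ≤ (l * n) * (T * (l - 1)) := by
    gcongr; nlinarith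
  nlinarith

end Pool.Agent.H231Z.Abc.M
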