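import Pool.Agent.H231Z.Abc.Short
import Pool.Agent.H231Z.Abc.Final

set_option autoImplicit false

/-!
The short vector statement with constant `exp 2`.
-/

namespace Pool.Agent.H231Z.Abc

open Finset

theorem sv_two : SV 2 := by
  intro l hl
  have hl0 : 0 < l := by linarith
  set r := Real.log l with hr
  have hr0 : 0 < r := Real.log_pos hl
  set s := r / 4 with hs
  have hs0 : 0 < s := by positivity
  set z := Real.exp (-(r ^ 2 / (4 * (1 + s)))) with hz
  have hz0 : 0 < z := Real.exp_pos _
  have hz1 : z < 1 := Real.exp_lt_one_iff.2 (neg_lt_zero.2 (by positivity))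
  set e := (1 - l⁻¹) / 4 with he
  have hli : l⁻¹ < 1 := inv_lt_one_of_one_lt₀ hl
  have he0 : 0 < e := by rw [he]; linarith
  set A := ((1 + z) / (1 - z)) ^ 2 with hA
  have hA0 : 0 ≤ A := sq_nonneg _
  set E := e * e ^ s⁻¹ with hE
  have hE0 : 0 < E := by positivity
  have hl1 : 0 < l - 1 := by linarith
  refine ⟨(A + 1) / E + 3 / (l - 1) + 1, 1, by positivity,
    fun n k x p hp hinj hodd hpx T hT hn hB => ?_⟩
  have hc1 : 0 < (A + 1) / E := by positivity
  have hc2 : 0 < 3 / (l - 1) := by positivity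
  have hL0 : 0 ≤ Real.log x := Real.log_natCast_nonneg x
  have hT1 : 1 ≤ T := by nlinarith
  have hT2 : 3 * (Real.log x + 1) ≤ T * (l - 1) := by
    rw [← div_le_iff₀ hl1, mul_div_right_comm]; nlinarith
  have hn1 : (1 : ℝ) ≤ n := by linarith
  set K := ⌈A * T⌉₊ with hK
  have hw1 : ∀ i, 1 ≤ Real.log (p i) := fun i => by
    have h3 : 3 ≤ p i := by have := (hp i).two_le; have := hodd i; omega
    have h4 : (3 : ℝ) ≤ p i := by exact_mod_cast h3
    rw [Real.le_log_iff_exp_le (by linarith)]
    linarith [Real.exp_one_lt_three]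
  have hwx : ∑ i, Real.log (p i) ≤ n * Real.log x := by
    have := sum_le_card_nsmul (univ : Finset (Fin n)) (fun i => Real.log (p i)) (Real.log x)
      fun i _ => Real.log_le_log (by exact_mod_cast (hp i).pos) (by exact_mod_cast hpx i)
    simpa using this
  have hlog : ∀ u : Fin n → Fin K, Nat.log 2 (∏ i, p i ^ (u i : ℕ)) < K * n * x + 1 := by
    intro u
    have h1 : ∏ i, p i ^ (u i : ℕ) ≤ ((2 ^ x) ^ K) ^ n := by
      have := prod_le_pow_card (univ : Finset (Fin n)) (fun i => p i ^ (u i : ℕ)) ((2 ^ x) ^ K)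
        fun i _ => (Nat.pow_le_pow_left ((hpx i).trans Nat.lt_two_pow_self.le) _).trans
          (Nat.pow_le_pow_right (by positivity) (u i).2.le)
      simpa using this
    rw [← pow_mul, ← pow_mul] at h1
    have h2 := Nat.log_mono_right (b := 2) h1
    rw [Nat.log_pow one_lt_two] at h2
    have : x * (K * n) = K * n * x := by ring
    omega
  obtain ⟨u, v, huv, hcls, hd⟩ := short (β := ZMod (2 ^ k) × Fin (K * n * x + 1)) K
    (fun i => Real.log (p i)) hw1 T (Real.exp 2 / l ^ 2) z s e (2 * l * n * T) (by linarith)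
    (by positivity) hz0 hz1 hs0 he0 (by positivity) (Nat.le_ceil _) (by
      have e1 : Real.exp 2 / l ^ 2 = Real.exp (2 - 2 * r) := by
        rw [Real.exp_sub, mul_comm 2 r, Real.exp_mul, hr, Real.exp_log hl0, Real.rpow_two]
      have h1 : Real.exp (2 * s - 4 * s ^ 2) ≤ 1 + 2 * s := by
        rw [← Real.le_log_iff_exp_le (by positivity)]
        refine le_trans ?_ (Real.one_sub_inv_le_log_of_pos (by positivity))
        have : (1 + 2 * s)⁻¹ ≤ 1 - 2 * s + 4 * s ^ 2 := by
          rw [inv_le_iff_one_le_mul₀ (by positivity)]; nlinarith [pow_pos hs0 3]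
        linarith
      rw [e1, hz, ← Real.exp_mul, ← Real.exp_mul]
      refine le_trans (le_of_eq ?_) (mul_le_mul_of_nonneg_right h1 (Real.exp_pos _).le)
      rw [← Real.exp_add]
      congr 1
      field_simp
      rw [hs]; ring)
    (by
      rw [Fintype.card_prod, ZMod.card, Fintype.card_fin, Fintype.card_fin, ← mul_div_assoc]
      refine le_trans ?_ (mul_le_mul_of_nonneg_left hB hE0.le)
      have hP : 0 ≤ ∏ i, Real.log (p i) := prod_nonneg fun i _ => Real.log_natCast_nonneg _
      have hK1 : (K : ℝ) ≤ (A + 1) * T := by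
        have := (Nat.ceil_lt_add_one (by positivity : 0 ≤ A * T)).le
        linarith
      have h2 : ((K * n * x + 1 : ℕ) : ℝ) ≤ (A + 1) * (n * x * T + 1) := by
        push_cast
        have : (K : ℝ) * (n * x) ≤ (A + 1) * T * (n * x) := by gcongr
        nlinarith
      have h3 : A + 1 ≤ E * ((A + 1) / E + 3 / (l - 1) + 1) := by
        have : E * ((A + 1) / E) = A + 1 := by field_simp
        nlinarith
      rw [Nat.cast_mul, Nat.cast_pow, Nat.cast_ofNat, pow_one]
      calc _ ≤ 2 ^ k * (E * ((A + 1) / E + 3 / (l - 1) + 1) * (n * x * T + 1)) *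
            ∏ i, Real.log (p i) := by
            gcongr
            exact h2.trans (by gcongr)
        _ = _ := by ring)
    (by
      rw [Fintype.card_fin]
      have e1 : 2 * l * n * T * (1 - 2 * e) = (l + 1) * n * T := by rw [he]; field_simp; ring
      rw [e1]
      nlinarith [mul_le_mul_of_nonneg_left hT2 (by linarith : (0 : ℝ) ≤ n)])
    (fun u => (((∏ i, p i ^ (u i : ℕ) : ℕ) : ZMod (2 ^ k)), ⟨_, hlog u⟩))
  obtain ⟨a, b, c, ha, hb, hab, habc, hk, hrad, hc⟩ := triple k p hp hinj hodd (fun i => u i)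
    (fun i => v i) (fun h => huv (funext fun i => Fin.ext (congrFun h i)))
    (congrArg Prod.fst hcls) (congrArg (fun y => (y.2 : ℕ)) hcls)
  refine ⟨a, b, c, ha, hb, hab, habc, hk, hrad, ?_⟩
  have h5 := Real.log_two_lt_d9
  have h6 : 3 ≤ T * (l - 1) := by linarith
  have h7 : 1 * 3 ≤ (l * n) * (T * (l - 1)) := by
    gcongr; nlinarith
  nlinarith

end Pool.Agent.H231Z.Abc
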