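import Pool.Agent.H231Z.Abc.Core
import Pool.Agent.H231Z.Abc.Logistic

set_option autoImplicit false

/-!
Two close points in one class, and the triple they give.
-/

namespace Pool.Agent.H231Z.Abc

open Finset

theorem short {ι β : Type} [Fintype ι] [DecidableEq ι] [Fintype β] [DecidableEq β] [Nonempty β]
    (K : ℕ) (w : ι → ℝ) (hw : ∀ i, 1 ≤ w i) (T γ z s e D : ℝ) (hT : 0 < T) (hγ0 : 0 < γ)
    (hz0 : 0 < z) (hz : z < 1) (hs : 0 < s) (he : 0 < e) (hD0 : 0 ≤ D)
    (hK : ((1 + z) / (1 - z)) ^ 2 * T ≤ K) (hγ : γ ^ s ≤ (1 + 2 * s) * z ^ (1 + s))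
    (hB : Fintype.card β * ∏ i, w i ≤ e * e ^ s⁻¹ * (T * γ) ^ Fintype.card ι)
    (hD : 2 * (Fintype.card ι * T + ∑ i, w i) < D * (1 - 2 * e)) (cls : (ι → Fin K) → β) :
    ∃ u v, u ≠ v ∧ cls u = cls v ∧ ∑ i, w i * |(u i : ℝ) - (v i : ℝ)| < D := by
  by_contra hcon
  push Not at hcon
  have hw0 : ∀ i, 0 < w i := fun i => one_pos.trans_le (hw i)
  have hl : ∀ i, _ := fun i => logistic (η := w i / T) (s := s) (div_pos (hw0 i) hT) hz0 hz hs.le K
    (by
      rw [mul_div_assoc', le_div_iff₀ hT]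
      have : (0 : ℝ) ≤ K := Nat.cast_nonneg K
      nlinarith [hw i])
  choose p l hp hs1 hV hR using hl
  have hB0 : (0 : ℝ) < Fintype.card β := by exact_mod_cast Fintype.card_pos
  have h := core K p hp hs1 w (fun i => (hw0 i).le) l _ (fun i => (w i / (T * γ)) ^ s) hV s
    (e / Fintype.card β) D hs.le (div_pos he hB0) (fun i => (hR i).trans (by
      rw [← div_div (w i) T γ, Real.div_rpow (div_pos (hw0 i) hT).le hγ0.le]
      exact div_le_div_of_nonneg_left (Real.rpow_pos_of_pos (div_pos (hw0 i) hT) _).le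
        (Real.rpow_pos_of_pos hγ0 _) hγ)) cls hD0 hcon
  have e1 : ∑ i, w i * ((1 + w i / T) / (w i / T)) = Fintype.card ι * T + ∑ i, w i := by
    rw [← nsmul_eq_mul, ← card_univ, ← sum_const, ← sum_add_distrib]
    refine sum_congr rfl fun i _ => ?_
    have := hw0 i
    field_simp
  have e2 : (Fintype.card β : ℝ) * (e / Fintype.card β) = e := by field_simp
  have e3 : (e / Fintype.card β) ^ (-s) * ∏ i, (w i / (T * γ)) ^ s ≤ e := by
    have hP : 0 < ∏ i, w i := prod_pos fun i _ => hw0 i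
    rw [Real.finsetProd_rpow _ _ (fun i _ => (div_pos (hw0 i) (mul_pos hT hγ0)).le),
      Real.rpow_neg (div_pos he hB0).le, ← Real.inv_rpow (div_pos he hB0).le,
      ← Real.mul_rpow (by positivity)
        (prod_nonneg fun i _ => (div_pos (hw0 i) (mul_pos hT hγ0)).le),
      prod_div_distrib, prod_const, card_univ]
    have h1 : (e / Fintype.card β)⁻¹ * ((∏ i, w i) / (T * γ) ^ Fintype.card ι) ≤ e ^ s⁻¹ := by
      rw [inv_div, div_mul_div_comm, div_le_iff₀ (by positivity)]
      linarith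
    refine (Real.rpow_le_rpow (by positivity) h1 hs.le).trans (le_of_eq ?_)
    exact Real.rpow_inv_rpow he.le hs.ne'
  rw [e1, e2] at h
  nlinarith [mul_le_mul_of_nonneg_left e3 hD0]

theorem triple_aux {ι : Type} [Fintype ι] (k : ℕ) (p : ι → ℕ) (hp : ∀ i, (p i).Prime)
    (hinj : Function.Injective p) (hodd : ∀ i, p i ≠ 2) (u v : ι → ℕ)
    (hlt : ∏ i, p i ^ u i < ∏ i, p i ^ v i)
    (hmod : ((∏ i, p i ^ u i : ℕ) : ZMod (2 ^ k)) = (∏ i, p i ^ v i : ℕ))
    (hlog : Nat.log 2 (∏ i, p i ^ u i) = Nat.log 2 (∏ i, p i ^ v i)) :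
    ∃ a b c : ℕ, 0 < a ∧ 0 < b ∧ Nat.Coprime a b ∧ a + b = c ∧ 2 ^ k ≤ c ∧
      (∏ q ∈ (a * b * c).primeFactors, q) * 2 ^ k < 2 * (∏ i, p i) * c ∧
      2 * Real.log c ≤ Real.log 2 + ∑ i, Real.log (p i) * |(u i : ℝ) - (v i : ℝ)| := by
  set a := ∏ i, p i ^ (u i - v i) with ha
  set c := ∏ i, p i ^ (v i - u i) with hc
  set g := ∏ i, p i ^ (min (u i) (v i)) with hg
  have hp0 : ∀ i, 0 < p i := fun i => (hp i).pos
  have ha0 : 0 < a := prod_pos fun i _ => pow_pos (hp0 i) _
  have hc0 : 0 < c := prod_pos fun i _ => pow_pos (hp0 i) _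
  have hg0 : 0 < g := prod_pos fun i _ => pow_pos (hp0 i) _
  have e1 : ∏ i, p i ^ u i = g * a := by
    rw [hg, ha, ← prod_mul_distrib]
    exact prod_congr rfl fun i _ => by rw [← pow_add]; congr 1; omega
  have e2 : ∏ i, p i ^ v i = g * c := by
    rw [hg, hc, ← prod_mul_distrib]
    exact prod_congr rfl fun i _ => by rw [← pow_add]; congr 1; omega
  rw [e1, e2] at hlt hmod hlog
  have hac : a < c := lt_of_mul_lt_mul_left hlt (Nat.zero_le _)
  have hcop : Nat.Coprime a c := by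
    refine Nat.Coprime.prod_left fun i _ => Nat.Coprime.prod_right fun j _ => ?_
    by_cases hij : i = j
    · subst hij
      rcases le_total (u i) (v i) with h | h
      · simp [Nat.sub_eq_zero_of_le h]
      · simp [Nat.sub_eq_zero_of_le h]
    · exact Nat.Coprime.pow _ _ ((Nat.coprime_primes (hp i) (hp j)).2 fun h => hij (hinj h))
  have hg2 : Nat.Coprime (2 ^ k) g :=
    Nat.Coprime.prod_right fun j _ =>
      Nat.Coprime.pow _ _ ((Nat.coprime_primes Nat.prime_two (hp j)).2 (hodd j).symm)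
  have hdvd : 2 ^ k ∣ c - a := by
    have := (Nat.modEq_iff_dvd' hlt.le).1 ((ZMod.natCast_eq_natCast_iff _ _ _).1 hmod)
    rw [← Nat.mul_sub] at this
    exact hg2.dvd_of_dvd_mul_left this
  obtain ⟨b, hb⟩ := hdvd
  have hb0 : 0 < b := by
    rcases Nat.eq_zero_or_pos b with h | h
    · rw [h] at hb; omega
    · exact h
  have hc2 : c < 2 * a := by
    have h1 := Nat.lt_pow_succ_log_self (b := 2) one_lt_two (g * c)
    have h2 := Nat.pow_log_le_self 2 (Nat.mul_pos hg0 ha0).ne'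
    rw [← hlog, Nat.pow_succ] at h1
    have : g * c < g * (2 * a) := by nlinarith
    exact lt_of_mul_lt_mul_left this (Nat.zero_le _)
  have hP : 0 < ∏ i, p i := prod_pos fun i _ => hp0 i
  refine ⟨a, c - a, c, ha0, by omega, ?_, by omega, ?_, ?_, ?_⟩
  · exact (Nat.coprime_sub_self_right hac.le).2 hcop
  · have : 2 ^ k ≤ 2 ^ k * b := Nat.le_mul_of_pos_right _ hb0
    omega
  · have hd : ∏ q ∈ (a * (c - a) * c).primeFactors, q ∣ 2 * (∏ i, p i) * b := by
      refine Finset.prod_primes_dvd _ (fun q hq => (Nat.prime_of_mem_primeFactors hq).prime)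
        fun q hq => ?_
      have hq1 := Nat.prime_of_mem_primeFactors hq
      have hq2 := Nat.dvd_of_mem_primeFactors hq
      have hP' : ∀ f : ι → ℕ, q ∣ ∏ i, p i ^ f i → q ∣ 2 * (∏ i, p i) * b := by
        intro f hf
        obtain ⟨i, _, hi⟩ := (Prime.dvd_finsetProd_iff hq1.prime _).1 hf
        exact ((hq1.dvd_of_dvd_pow hi).trans (dvd_prod_of_mem p (mem_univ i))).trans
          ((Dvd.intro_left _ rfl).trans (Dvd.intro _ rfl))
      rcases (Nat.Prime.dvd_mul hq1).1 hq2 with h | h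
      · rcases (Nat.Prime.dvd_mul hq1).1 h with h | h
        · exact hP' _ h
        · rw [hb] at h
          rcases (Nat.Prime.dvd_mul hq1).1 h with h | h
          · exact (hq1.dvd_of_dvd_pow h).trans ((Dvd.intro _ rfl).trans (Dvd.intro _ rfl))
          · exact h.trans (Dvd.intro_left _ rfl)
      · exact hP' _ h
    have h1 := Nat.le_of_dvd (by positivity) hd
    calc _ ≤ 2 * (∏ i, p i) * b * 2 ^ k := Nat.mul_le_mul_right _ h1
      _ = 2 * (∏ i, p i) * (c - a) := by rw [hb]; ring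
      _ < 2 * (∏ i, p i) * c := Nat.mul_lt_mul_of_pos_left (by omega) (by positivity)
  · have e3 : Real.log a + Real.log c = ∑ i, Real.log (p i) * |(u i : ℝ) - (v i : ℝ)| := by
      rw [ha, hc]
      push_cast
      rw [Real.log_prod (fun i _ => by have := hp0 i; positivity),
        Real.log_prod (fun i _ => by have := hp0 i; positivity), ← sum_add_distrib]
      refine sum_congr rfl fun i _ => ?_
      rw [Real.log_pow, Real.log_pow]
      rcases le_total (u i) (v i) with h | h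
      · rw [Nat.sub_eq_zero_of_le h, Nat.cast_sub h, abs_sub_comm,
          abs_of_nonneg (sub_nonneg.2 (by exact_mod_cast h))]
        simp [mul_comm]
      · rw [Nat.sub_eq_zero_of_le h, Nat.cast_sub h,
          abs_of_nonneg (sub_nonneg.2 (by exact_mod_cast h))]
        simp [mul_comm]
    have h4 : Real.log c ≤ Real.log 2 + Real.log a := by
      rw [← Real.log_mul (by norm_num) (by positivity)]
      exact Real.log_le_log (by positivity) (by exact_mod_cast hc2.le)
    linarith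

theorem triple {ι : Type} [Fintype ι] (k : ℕ) (p : ι → ℕ) (hp : ∀ i, (p i).Prime)
    (hinj : Function.Injective p) (hodd : ∀ i, p i ≠ 2) (u v : ι → ℕ) (huv : u ≠ v)
    (hmod : ((∏ i, p i ^ u i : ℕ) : ZMod (2 ^ k)) = (∏ i, p i ^ v i : ℕ))
    (hlog : Nat.log 2 (∏ i, p i ^ u i) = Nat.log 2 (∏ i, p i ^ v i)) :
    ∃ a b c : ℕ, 0 < a ∧ 0 < b ∧ Nat.Coprime a b ∧ a + b = c ∧ 2 ^ k ≤ c ∧
      (∏ q ∈ (a * b * c).primeFactors, q) * 2 ^ k < 2 * (∏ i, p i) * c ∧
      2 * Real.log c ≤ Real.log 2 + ∑ i, Real.log (p i) * |(u i : ℝ) - (v i : ℝ)| := by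
  rcases lt_trichotomy (∏ i, p i ^ u i) (∏ i, p i ^ v i) with h | h | h
  · exact triple_aux k p hp hinj hodd u v h hmod hlog
  · exfalso
    apply huv
    funext i
    have key : ∀ f : ι → ℕ, (∏ j, p j ^ f j).factorization (p i) = f i := by
      intro f
      rw [Nat.factorization_prod fun j _ => pow_ne_zero _ (hp j).ne_zero, Finsupp.finset_sum_apply,
        sum_eq_single i]
      · simp [(hp i).factorization_pow]
      · intro j _ hj
        rw [(hp j).factorization_pow, Finsupp.single_eq_of_ne fun h => hj (hinj h).symm]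
      · simp
    rw [← key u, ← key v, h]
  · have := triple_aux k p hp hinj hodd v u h hmod.symm hlog.symm
    simpa only [abs_sub_comm] using this

end Pool.Agent.H231Z.Abc
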